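import Mathlib

/-! Tilings of the integer lattice by congruent copies of 4-sets (MP_dae7ec_co). -/
namespace R178.GT

/-- squared Euclidean distance on `ℤ × ℤ` -/
def dsq (p q : ℤ × ℤ) : ℤ := (p.1 - q.1) ^ 2 + (p.2 - q.2) ^ 2

/-- isometries of `ℤ²` with the Euclidean metric: distance-preserving bijections -/
def IsIso (g : ℤ × ℤ → ℤ × ℤ) : Prop :=
  Function.Bijective g ∧ ∀ p q, dsq (g p) (g q) = dsq p q

/-- `S` tiles `ℤ²` under the group of all isometries of `ℤ²` -/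
def Tiles (S : Set (ℤ × ℤ)) : Prop :=
  ∃ (I : Type) (g : I → (ℤ × ℤ → ℤ × ℤ)), (∀ i, IsIso (g i)) ∧
    (∀ i j, i ≠ j → Disjoint (g i '' S) (g j '' S)) ∧ (⋃ i, g i '' S) = Set.univ

/-- rotation by `k` quarter turns -/
def rot : Fin 4 → ℤ × ℤ → ℤ × ℤ
  | 0, p => p
  | 1, p => (-p.2, p.1)
  | 2, p => (-p.1, -p.2)
  | 3, p => (p.2, -p.1)

/-- `S` tiles with the copies `rot k S + t`, `(k, t) ∈ Q` -/
def TilesBy (Q : Set (Fin 4 × (ℤ × ℤ))) (S : Set (ℤ × ℤ)) : Prop :=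
  ∀ p : ℤ × ℤ, ∃! x : (Fin 4 × (ℤ × ℤ)) × (ℤ × ℤ), x.1 ∈ Q ∧ x.2 ∈ S ∧ rot x.1.1 x.2 + x.1.2 = p

def RT (S : Set (ℤ × ℤ)) : Prop := ∃ Q, TilesBy Q S

/-- tilings which use only translations and half turns -/
def PT (S : Set (ℤ × ℤ)) : Prop := ∃ Q, TilesBy Q S ∧ ∀ q ∈ Q, q.1 = 0 ∨ q.1 = 2

def det (p q : ℤ × ℤ) : ℤ := p.1 * q.2 - p.2 * q.1

/-- `v₂(m) = i`, for `m ≠ 0` -/
def V (i : ℕ) (m : ℤ) : Prop := ∃ u : ℤ, m = 2 ^ i * (2 * u + 1)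

/-- glue: from rotations to isometries -/
def S_GLUE : Prop := ∀ S : Set (ℤ × ℤ), S.Nonempty → RT S → Tiles S

/-- translation invariance -/
def S_TR : Prop := ∀ (S : Set (ℤ × ℤ)) (c : ℤ × ℤ), RT S → RT ((fun p => p + c) '' S)

/-- embedding, quarter turns: the lattice spanned by `d` and its quarter turn -/
def S_EMB : Prop := ∀ (S : Set (ℤ × ℤ)) (d : ℤ × ℤ), d ≠ 0 → RT S →
  RT ((fun p : ℤ × ℤ => (p.1 * d.1 - p.2 * d.2, p.1 * d.2 + p.2 * d.1)) '' S)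

/-- embedding, half turns only: any lattice of rank two -/
def S_EMP : Prop := ∀ (S : Set (ℤ × ℤ)) (u w : ℤ × ℤ), det u w ≠ 0 → PT S →
  RT ((fun p : ℤ × ℤ => (p.1 * u.1 + p.2 * w.1, p.1 * u.2 + p.2 * w.2)) '' S)

/-- binary digits -/
def S_BIT : Prop := ∀ i : ℕ, ∃ b : ℤ → Bool, (∀ m, V i m → ∀ z, b (z + m) = !b z) ∧
  (∀ j n, i < j → V j n → ∀ z, b (z + n) = b z)

/-- two even and two odd elements on a line, equal valuations (only translations) -/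
def S_T22E : Prop := ∀ (i : ℕ) (m n c : ℤ), 1 ≤ i → V i m → V i n → c % 2 = 1 →
  RT {((0 : ℤ), (0 : ℤ)), (m, 0), (c, 0), (c + n, 0)}

/-- two even and two odd elements on a line, different valuations -/
def S_T22 : Prop := ∀ (i j : ℕ) (m n c : ℤ), 1 ≤ i → i < j → V i m → V j n → c % 2 = 1 →
  RT {((0 : ℤ), (0 : ℤ)), (m, 0), (c, 0), (c + n, 0)}

/-- three even elements and one odd element on a line -/
def S_T31 : Prop := ∀ (i j : ℕ) (m n c : ℤ), 1 ≤ i → i < j → V i m → V j n → c % 2 = 1 →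
  RT {((0 : ℤ), (0 : ℤ)), (n, 0), (m, 0), (c, 0)}

/-- all quadruples of distinct integers on a line -/
def S_ONE : Prop := ∀ a b c : ℤ, a ≠ 0 → b ≠ 0 → c ≠ 0 → a ≠ b → a ≠ c → b ≠ c →
  RT {((0 : ℤ), (0 : ℤ)), (a, 0), (b, 0), (c, 0)}

/-- collinear quadruples -/
def S_COL : Prop := ∀ a b c : ℤ × ℤ, a ≠ 0 → b ≠ 0 → c ≠ 0 → a ≠ b → a ≠ c → b ≠ c →
  det a b = 0 → det b c = 0 → det a c = 0 → RT {0, a, b, c}

/-- trapezoids, standard form -/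
def S_TRA0 : Prop := ∀ (i j : ℕ) (m n : ℤ), i ≤ j → V i m → V j n →
  PT {((0 : ℤ), (0 : ℤ)), (m, 0), (0, 1), (n, 1)}

/-- trapezoids -/
def S_TRA : Prop := ∀ a b c : ℤ × ℤ, a ≠ 0 → b ≠ c → det a (c - b) = 0 → det a b ≠ 0 →
  RT {0, a, b, c}

/-- projection to a line where `S` becomes `{0,D} + {0,E}` -/
def S_PAR : Prop := ∀ (i j : ℕ) (a b c w : ℤ × ℤ), i ≠ j → V i (det w a) → V j (det w b) →
  det w c = det w a + det w b → RT {0, a, b, c}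

/-- all three determinants with the same valuation -/
def S_ODD : Prop := ∀ (i : ℕ) (a b c : ℤ × ℤ), V i (det a b) → V i (det b c) → V i (det a c) →
  RT {0, a, b, c}

/-- non-collinear quadruples -/
def S_NCOL : Prop := ∀ a b c : ℤ × ℤ, a ≠ 0 → b ≠ 0 → c ≠ 0 → a ≠ b → a ≠ c → b ≠ c →
  ¬ (det a b = 0 ∧ det b c = 0 ∧ det a c = 0) → RT {0, a, b, c}

/-- the theorem -/
def S_MAIN : Prop := ∀ S : Finset (ℤ × ℤ), S.card = 4 → Tiles (S : Set (ℤ × ℤ))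

end R178.GT
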