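import Mathlib
import Pool.Agent.R178.GT.Defs

/-! Binary digits (piece BIT, MP_dae7ec_co). -/
namespace R178.GT

theorem t_BIT : S_BIT := by
  intro i
  have hp : (2 : ℤ) ^ i ≠ 0 := by positivity
  refine ⟨fun z => decide ((z / 2 ^ i) % 2 = 1), ?_, ?_⟩
  · rintro m ⟨u, rfl⟩ z
    have h : (z + 2 ^ i * (2 * u + 1)) / 2 ^ i = z / 2 ^ i + (2 * u + 1) :=
      Int.add_mul_ediv_left _ _ hp
    have h2 : (z / 2 ^ i + (2 * u + 1)) % 2 = 1 ↔ ¬ (z / 2 ^ i) % 2 = 1 := by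
      generalize z / 2 ^ i = w
      omega
    simp only [h, h2, decide_not]
  · rintro j n hij ⟨u, rfl⟩ z
    obtain ⟨k, rfl⟩ : ∃ k, j = i + 1 + k := ⟨j - (i + 1), by omega⟩
    have h0 : z + 2 ^ (i + 1 + k) * (2 * u + 1) = z + 2 ^ i * (2 * (2 ^ k * (2 * u + 1))) := by
      ring
    have h : (z + 2 ^ i * (2 * (2 ^ k * (2 * u + 1)))) / 2 ^ i =
        z / 2 ^ i + 2 * (2 ^ k * (2 * u + 1)) := Int.add_mul_ediv_left _ _ hp
    have h2 : (z / 2 ^ i + 2 * (2 ^ k * (2 * u + 1))) % 2 = (z / 2 ^ i) % 2 := by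
      generalize z / 2 ^ i = w
      generalize 2 ^ k * (2 * u + 1) = x
      omega
    simp only [h0, h, h2]

end R178.GT
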