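import Mathlib
import Pool.Agent.R178.GT.Defs

/-! Collinear quadruples from the quadruples on a line. -/
namespace R178.GT

namespace COLx

/-- a nonzero vector is a multiple of a vector with a Bezout relation -/
lemma exists_prim (a : ℤ × ℤ) (ha : a ≠ 0) :
    ∃ (g : ℤ) (d : ℤ × ℤ) (u v : ℤ), g ≠ 0 ∧ a = (g * d.1, g * d.2) ∧ d.1 * u + d.2 * v = 1 := by
  obtain ⟨a1, a2⟩ := a
  have hg : (Int.gcd a1 a2 : ℤ) ≠ 0 := by
    intro h
    have h0 : Int.gcd a1 a2 = 0 := by exact_mod_cast h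
    rw [Int.gcd_eq_zero_iff] at h0
    apply ha
    ext
    · exact h0.1
    · exact h0.2
  obtain ⟨d1, hd1⟩ := Int.gcd_dvd_left a1 a2
  obtain ⟨d2, hd2⟩ := Int.gcd_dvd_right a1 a2
  have hb := Int.gcd_eq_gcd_ab a1 a2
  refine ⟨(Int.gcd a1 a2 : ℤ), (d1, d2), Int.gcdA a1 a2, Int.gcdB a1 a2, hg, ?_, ?_⟩
  · ext
    · exact hd1
    · exact hd2
  · have h1 : (Int.gcd a1 a2 : ℤ) * (d1 * Int.gcdA a1 a2 + d2 * Int.gcdB a1 a2) =
        (Int.gcd a1 a2 : ℤ) * 1 := by
      calc (Int.gcd a1 a2 : ℤ) * (d1 * Int.gcdA a1 a2 + d2 * Int.gcdB a1 a2)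
          = ((Int.gcd a1 a2 : ℤ) * d1) * Int.gcdA a1 a2 +
            ((Int.gcd a1 a2 : ℤ) * d2) * Int.gcdB a1 a2 := by ring
        _ = a1 * Int.gcdA a1 a2 + a2 * Int.gcdB a1 a2 := by rw [← hd1, ← hd2]
        _ = (Int.gcd a1 a2 : ℤ) * 1 := by rw [mul_one]; exact hb.symm
    exact mul_left_cancel₀ hg h1

lemma mult_of_det (d b : ℤ × ℤ) (u v : ℤ) (hd : d.1 * u + d.2 * v = 1)
    (h : d.1 * b.2 - d.2 * b.1 = 0) : ∃ y : ℤ, b = (y * d.1, y * d.2) := by
  refine ⟨b.1 * u + b.2 * v, ?_⟩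
  ext
  · show b.1 = (b.1 * u + b.2 * v) * d.1
    linear_combination (-b.1) * hd - v * h
  · show b.2 = (b.1 * u + b.2 * v) * d.2
    linear_combination (-b.2) * hd + u * h

end COLx

theorem t_COL (h1 : S_EMB) (h2 : S_ONE) : S_COL := by
  intro a b c ha hb hc hab hac hbc hdab hdbc hdac
  obtain ⟨g, d, u, v, hg, hag, hd⟩ := COLx.exists_prim a ha
  have e1 : d.1 * b.2 - d.2 * b.1 = 0 := by
    have : g * (d.1 * b.2 - d.2 * b.1) = 0 := by
      have h := hdab
      unfold det at h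
      rw [hag] at h
      simp only at h
      linear_combination h
    exact (mul_eq_zero.1 this).resolve_left hg
  have e2 : d.1 * c.2 - d.2 * c.1 = 0 := by
    have : g * (d.1 * c.2 - d.2 * c.1) = 0 := by
      have h := hdac
      unfold det at h
      rw [hag] at h
      simp only at h
      linear_combination h
    exact (mul_eq_zero.1 this).resolve_left hg
  obtain ⟨y, hy⟩ := COLx.mult_of_det d b u v hd e1
  obtain ⟨z, hz⟩ := COLx.mult_of_det d c u v hd e2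
  have hd0 : d ≠ 0 := by
    rintro rfl
    simp at hd
  have hy0 : y ≠ 0 := by
    rintro rfl
    apply hb
    rw [hy]
    simp
  have hz0 : z ≠ 0 := by
    rintro rfl
    apply hc
    rw [hz]
    simp
  have hgy : g ≠ y := by
    rintro rfl
    exact hab (hag.trans hy.symm)
  have hgz : g ≠ z := by
    rintro rfl
    exact hac (hag.trans hz.symm)
  have hyz : y ≠ z := by
    rintro rfl
    exact hbc (hy.trans hz.symm)
  have h3 := h1 _ d hd0 (h2 g y z hg hy0 hz0 hgy hgz hyz)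
  have h4 : ((fun p : ℤ × ℤ => (p.1 * d.1 - p.2 * d.2, p.1 * d.2 + p.2 * d.1)) ''
      {((0 : ℤ), (0 : ℤ)), (g, 0), (y, 0), (z, 0)}) = ({0, a, b, c} : Set (ℤ × ℤ)) := by
    simp only [Set.image_insert_eq, Set.image_singleton]
    rw [hag, hy, hz]
    simp
    rfl
  rw [h4] at h3
  exact h3

end R178.GT
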