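import Mathlib
import Pool.Agent.R178.GT.Defs

/-! Tilings of the integer lattice by centrally symmetric 5-sets (MP_dae7ec_co). -/
namespace R178.GT

/-- the lower value at `z` -/
def Lw (A : ℤ → ZMod 5) (v : ℤ → Bool) (w : ZMod 5) (z : ℤ) : ZMod 5 :=
  A (z - 1) - (if v (z - 1) then w else 0)

/-- the upper value at `z` -/
def Up (A : ℤ → ZMod 5) (v : ℤ → Bool) (w : ZMod 5) (z : ℤ) : ZMod 5 :=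
  A (z + 1) + (if v (z + 1) then w else 0)

def S_EX2 : Prop := ∀ (k : ℕ) (u : ZMod 5), 1 ≤ k → u ≠ 0 →
  ∃ (A : ℤ → ZMod 5) (v : ℤ → Bool) (w : ZMod 5), (∀ x, A (x + 5 ^ k) = A x - 1) ∧
    (∀ x, v (x + 5 ^ k) = v x) ∧
    ∀ z, [A z, A z + u, A z - u, Lw A v w z, Up A v w z].Nodup

def S_EX3 : Prop := ∀ (k : ℕ) (u : ZMod 5), 1 ≤ k → u ≠ 0 →
  ∃ (A : ℤ → ZMod 5) (v : ℤ → Bool) (w : ZMod 5), (∀ x, A (x + 5 ^ k) = A x - 1) ∧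
    (∀ x, v (x + 5 ^ k) = v x) ∧
    ∀ z, [A z, Lw A v w z, Lw A v w z + u, Up A v w z, Up A v w z - u].Nodup

/-- the symmetric 5-set `{0, ±a, ±b}` on the horizontal axis -/
def L5 (a b : ℤ) : Set (ℤ × ℤ) := {((0 : ℤ), (0 : ℤ)), (a, 0), (-a, 0), (b, 0), (-b, 0)}

def S_P5A : Prop := ∀ (k : ℕ) (a b' : ℤ), 1 ≤ k → ¬ (5 : ℤ) ∣ a → ¬ (5 : ℤ) ∣ b' →
  RT (L5 a (5 ^ k * b'))

def S_P5B : Prop := ∀ (k : ℕ) (a c : ℤ), 1 ≤ k → ¬ (5 : ℤ) ∣ a → ¬ (5 : ℤ) ∣ c →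
  RT (L5 a (a + 5 ^ k * c))

def S_P5C : Prop := ∀ a b : ℤ, ¬ (5 : ℤ) ∣ a → ¬ (5 : ℤ) ∣ b → ¬ (5 : ℤ) ∣ (a - b) →
  ¬ (5 : ℤ) ∣ (a + b) → RT (L5 a b)

def S_LINE5 : Prop := ∀ a b : ℤ, a ≠ 0 → b ≠ 0 → a ≠ b → a ≠ -b → RT (L5 a b)

def S_LEE : Prop := PT {((0 : ℤ), (0 : ℤ)), (1, 0), (-1, 0), (0, 1), (0, -1)}

def S_SYM5 : Prop := ∀ u w : ℤ × ℤ, u ≠ 0 → w ≠ 0 → u ≠ w → u ≠ -w → RT {0, u, -u, w, -w}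

def S_MAIN5 : Prop := ∀ S : Finset (ℤ × ℤ), S.card = 5 → (∃ c : ℤ × ℤ, ∀ p ∈ S, c - p ∈ S) →
  Tiles (S : Set (ℤ × ℤ))

end R178.GT
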