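import Mathlib
import Pool.Agent.R178.GT.Defs

/-! Embedding, quarter turns. -/

set_option autoImplicit false
set_option linter.all false

namespace R178.GT

namespace EMBx

/-- the embedding -/
def io (d : ℤ × ℤ) : ℤ × ℤ →+ ℤ × ℤ where
  toFun p := (p.1 * d.1 - p.2 * d.2, p.1 * d.2 + p.2 * d.1)
  map_zero' := by simp
  map_add' p q := by
    ext
    · simp only [Prod.fst_add, Prod.snd_add]
      ring
    · simp only [Prod.fst_add, Prod.snd_add]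
      ring

lemma io_inj {d : ℤ × ℤ} (hd : d ≠ 0) : Function.Injective (io d) := by
  rw [injective_iff_map_eq_zero]
  rintro ⟨x, y⟩ h
  have h1 : x * d.1 - y * d.2 = 0 := congrArg Prod.fst h
  have h2 : x * d.2 + y * d.1 = 0 := congrArg Prod.snd h
  have hn : d.1 ^ 2 + d.2 ^ 2 ≠ 0 := by
    intro h0
    apply hd
    have e1 : d.1 = 0 := by
      have : d.1 ^ 2 = 0 := by nlinarith [sq_nonneg d.1, sq_nonneg d.2]
      exact pow_eq_zero_iff (two_ne_zero) |>.1 this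
    have e2 : d.2 = 0 := by
      have : d.2 ^ 2 = 0 := by nlinarith [sq_nonneg d.1, sq_nonneg d.2]
      exact pow_eq_zero_iff (two_ne_zero) |>.1 this
    exact Prod.ext e1 e2
  have hx : x * (d.1 ^ 2 + d.2 ^ 2) = 0 := by linear_combination d.1 * h1 + d.2 * h2
  have hy : y * (d.1 ^ 2 + d.2 ^ 2) = 0 := by linear_combination d.1 * h2 - d.2 * h1
  exact Prod.ext ((mul_eq_zero.1 hx).resolve_right hn) ((mul_eq_zero.1 hy).resolve_right hn)

lemma io_rot (d : ℤ × ℤ) (k : Fin 4) (p : ℤ × ℤ) : io d (rot k p) = rot k (io d p) := by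
  fin_cases k
  · rfl
  · change ((-p.2) * d.1 - p.1 * d.2, (-p.2) * d.2 + p.1 * d.1) =
      (-(p.1 * d.2 + p.2 * d.1), p.1 * d.1 - p.2 * d.2)
    ext <;> ring
  · change ((-p.1) * d.1 - (-p.2) * d.2, (-p.1) * d.2 + (-p.2) * d.1) =
      (-(p.1 * d.1 - p.2 * d.2), -(p.1 * d.2 + p.2 * d.1))
    ext <;> ring
  · change (p.2 * d.1 - (-p.1) * d.2, p.2 * d.2 + (-p.1) * d.1) =
      (p.1 * d.2 + p.2 * d.1, -(p.1 * d.1 - p.2 * d.2))
    ext <;> ring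

lemma exists_rep (f : ℤ × ℤ →+ ℤ × ℤ) : ∃ rep : ℤ × ℤ → ℤ × ℤ,
    (∀ p, ∃ q, f q = p - rep p) ∧ ∀ p q z, f z = p - q → rep p = rep q := by
  refine ⟨fun p => Quotient.out (QuotientAddGroup.mk p : (ℤ × ℤ) ⧸ f.range), ?_, ?_⟩
  · intro p
    have h : (QuotientAddGroup.mk (Quotient.out (QuotientAddGroup.mk p : (ℤ × ℤ) ⧸ f.range)) :
        (ℤ × ℤ) ⧸ f.range) = QuotientAddGroup.mk p := Quotient.out_eq _
    rw [QuotientAddGroup.eq] at h
    obtain ⟨q, hq⟩ := h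
    exact ⟨q, by rw [hq]; abel⟩
  · intro p q z hz
    have h : (QuotientAddGroup.mk p : (ℤ × ℤ) ⧸ f.range) = QuotientAddGroup.mk q := by
      rw [QuotientAddGroup.eq]
      exact ⟨-z, by rw [map_neg, hz]; abel⟩
    change Quotient.out _ = Quotient.out _
    rw [h]

end EMBx

theorem t_EMB : S_EMB := by
  rintro S d hd ⟨Q, hQ⟩
  have hinj := EMBx.io_inj hd
  obtain ⟨rep, hr1, hr2⟩ := EMBx.exists_rep (EMBx.io d)
  refine ⟨{x | ∃ q ∈ Q, ∃ p, x = (q.1, rep p + EMBx.io d q.2)}, fun p => ?_⟩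
  obtain ⟨q, hq⟩ := hr1 p
  obtain ⟨x, ⟨hx1, hx2, hx3⟩, huniq⟩ := hQ q
  refine ⟨((x.1.1, rep p + EMBx.io d x.1.2), EMBx.io d x.2),
    ⟨⟨x.1, hx1, p, rfl⟩, ⟨x.2, hx2, rfl⟩, ?_⟩, ?_⟩
  · change rot x.1.1 (EMBx.io d x.2) + (rep p + EMBx.io d x.1.2) = p
    have h1 : EMBx.io d (rot x.1.1 x.2) + EMBx.io d x.1.2 = p - rep p := by
      rw [← map_add, hx3, hq]
    rw [EMBx.io_rot] at h1
    calc rot x.1.1 (EMBx.io d x.2) + (rep p + EMBx.io d x.1.2)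
        = (rot x.1.1 (EMBx.io d x.2) + EMBx.io d x.1.2) + rep p := by abel
      _ = p := by rw [h1]; abel
  · rintro ⟨⟨k, t⟩, s⟩ ⟨⟨q', hq', p', e⟩, ⟨s0, hs0, hs⟩, h⟩
    obtain ⟨e1, e2⟩ := Prod.mk.inj e
    subst e1 e2
    change EMBx.io d s0 = s at hs
    subst hs
    change rot q'.1 (EMBx.io d s0) + (rep p' + EMBx.io d q'.2) = p at h
    rw [← EMBx.io_rot] at h
    have h1 : EMBx.io d (rot q'.1 s0 + q'.2) = p - rep p' := by
      rw [map_add, ← h]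
      abel
    obtain ⟨z, hz⟩ := hr1 p'
    have h2 : rep p' = rep p := by
      apply hr2 p' p (z - (rot q'.1 s0 + q'.2))
      rw [map_sub, hz, h1]
      abel
    rw [h2] at h1
    have h3 : rot q'.1 s0 + q'.2 = q := hinj (h1.trans hq.symm)
    have h4 : ((q', s0) : (Fin 4 × (ℤ × ℤ)) × (ℤ × ℤ)) = x := huniq (q', s0) ⟨hq', hs0, h3⟩
    rw [← h4, h2]

end R178.GT
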