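import Mathlib
import Pool.Agent.R178.GT.Defs

/-! GT-EMP: tilings with half turns are carried to every lattice of rank two. -/

set_option autoImplicit false

namespace R178.GT

namespace EMPx

/-- the embedding -/
def io (u w : ℤ × ℤ) (p : ℤ × ℤ) : ℤ × ℤ := (p.1 * u.1 + p.2 * w.1, p.1 * u.2 + p.2 * w.2)

theorem io_add (u w p q : ℤ × ℤ) : io u w (p + q) = io u w p + io u w q := by
  apply Prod.ext
  · simp only [io, Prod.fst_add, Prod.snd_add]
    ring
  · simp only [io, Prod.fst_add, Prod.snd_add]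
    ring

theorem io_neg (u w p : ℤ × ℤ) : io u w (-p) = -io u w p := by
  apply Prod.ext
  · simp only [io, Prod.fst_neg, Prod.snd_neg]
    ring
  · simp only [io, Prod.fst_neg, Prod.snd_neg]
    ring

theorem io_zero (u w : ℤ × ℤ) : io u w 0 = 0 := by
  apply Prod.ext <;> simp [io]

theorem io_inj {u w : ℤ × ℤ} (h : det u w ≠ 0) {p q : ℤ × ℤ} (e : io u w p = io u w q) :
    p = q := by
  have e1 := congrArg Prod.fst e
  have e2 := congrArg Prod.snd e
  simp only [io] at e1 e2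
  have h1 : det u w * (p.1 - q.1) = 0 := by
    unfold det
    linear_combination w.2 * e1 - w.1 * e2
  have h2 : det u w * (p.2 - q.2) = 0 := by
    unfold det
    linear_combination u.1 * e2 - u.2 * e1
  apply Prod.ext
  · have h3 := (mul_eq_zero.1 h1).resolve_left h
    linarith
  · have h3 := (mul_eq_zero.1 h2).resolve_left h
    linarith

theorem io_rot (u w : ℤ × ℤ) (k : Fin 4) (hk : k = 0 ∨ k = 2) (s : ℤ × ℤ) :
    rot k (io u w s) = io u w (rot k s) := by
  rcases hk with rfl | rfl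
  · rfl
  · apply Prod.ext
    · show -(s.1 * u.1 + s.2 * w.1) = -s.1 * u.1 + -s.2 * w.1
      ring
    · show -(s.1 * u.2 + s.2 * w.2) = -s.1 * u.2 + -s.2 * w.2
      ring

/-- the cosets -/
def st (u w : ℤ × ℤ) : Setoid (ℤ × ℤ) where
  r p p' := ∃ q, p = p' + io u w q
  iseqv := {
    refl := fun p => ⟨0, by rw [io_zero, add_zero]⟩
    symm := by
      rintro p p' ⟨q, h⟩
      exact ⟨-q, by rw [io_neg, h]; abel⟩
    trans := by
      rintro a b c ⟨q, h⟩ ⟨q', h'⟩
      exact ⟨q' + q, by rw [h, h', io_add]; abel⟩ }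

/-- the chosen representative -/
noncomputable def rp (u w p : ℤ × ℤ) : ℤ × ℤ := (Quotient.mk (st u w) p).out

theorem rp_rel (u w p : ℤ × ℤ) : ∃ q, p = rp u w p + io u w q := by
  have h : Quotient.mk (st u w) p = Quotient.mk (st u w) (rp u w p) := (Quotient.out_eq _).symm
  exact Quotient.exact h

theorem rp_eq (u w : ℤ × ℤ) {p p' : ℤ × ℤ} (h : ∃ q, p = p' + io u w q) :
    rp u w p = rp u w p' := by
  have h1 : Quotient.mk (st u w) p = Quotient.mk (st u w) p' := Quotient.sound h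
  unfold rp
  rw [h1]

theorem rp_idem (u w p : ℤ × ℤ) : rp u w (rp u w p) = rp u w p :=
  (rp_eq u w (rp_rel u w p)).symm

end EMPx

open EMPx

theorem t_EMP : S_EMP := by
  rintro S u w hd ⟨Q, hQ, hk⟩
  refine ⟨{x | ∃ t ρ, (x.1, t) ∈ Q ∧ rp u w ρ = ρ ∧ x.2 = ρ + io u w t}, ?_⟩
  intro p
  obtain ⟨q, hq⟩ := rp_rel u w p
  obtain ⟨⟨⟨k, t⟩, s⟩, ⟨h1, h2, h3⟩, huniq⟩ := hQ q
  have h1' : (k, t) ∈ Q := h1
  have h3' : rot k s + t = q := h3
  refine ⟨((k, rp u w p + io u w t), io u w s),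
    ⟨⟨t, rp u w p, h1, rp_idem u w p, rfl⟩, ⟨s, h2, rfl⟩, ?_⟩, ?_⟩
  · show rot k (io u w s) + (rp u w p + io u w t) = p
    rw [io_rot u w k (hk _ h1') s]
    have h4 : io u w (rot k s) + io u w t = io u w q := by rw [← io_add, h3']
    calc io u w (rot k s) + (rp u w p + io u w t)
        = rp u w p + (io u w (rot k s) + io u w t) := by abel
      _ = rp u w p + io u w q := by rw [h4]
      _ = p := hq.symm
  · rintro ⟨⟨k', c'⟩, s'⟩ ⟨⟨t', ρ, g1, g2, g3⟩, ⟨s'', g4, g6⟩, g5⟩
    have g1' : (k', t') ∈ Q := g1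
    have g3' : c' = ρ + io u w t' := g3
    have g6' : s' = io u w s'' := g6.symm
    have g5' : rot k' s' + c' = p := g5
    rw [g6', io_rot u w k' (hk _ g1') s'', g3'] at g5'
    have hp : p = ρ + io u w (rot k' s'' + t') := by
      rw [io_add, ← g5']
      abel
    have hr : rp u w p = ρ := (rp_eq u w ⟨_, hp⟩).trans g2
    have hq' : p = ρ + io u w q := by
      rw [← hr]
      exact hq
    have hi : io u w (rot k' s'' + t') = io u w q := add_left_cancel (hp.symm.trans hq')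
    have hj := io_inj hd hi
    have hu := huniq ((k', t'), s'') ⟨g1', g4, hj⟩
    simp only [Prod.mk.injEq] at hu
    obtain ⟨⟨hu1, hu2⟩, hu3⟩ := hu
    rw [g6', g3', ← hr, hu1, hu2, hu3]

end R178.GT
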