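import Mathlib
import Pool.Agent.R178.GT.Defs

/-! GT-GLUE: from rotations to isometries. -/

set_option autoImplicit false

namespace R178.GT

namespace GLUEx

theorem inj (k : Fin 4) (t : ℤ × ℤ) : Function.Injective (fun p => rot k p + t) := by
  rintro ⟨a, b⟩ ⟨c, d⟩ h
  fin_cases k
  all_goals
    simp [rot, Prod.ext_iff] at h ⊢
    omega

theorem surj (k : Fin 4) (t : ℤ × ℤ) : Function.Surjective (fun p => rot k p + t) := by
  rintro ⟨x, y⟩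
  fin_cases k
  · exact ⟨(x - t.1, y - t.2), by simp [rot, Prod.ext_iff]⟩
  · exact ⟨(y - t.2, t.1 - x), by simp [rot, Prod.ext_iff]⟩
  · exact ⟨(t.1 - x, t.2 - y), by simp [rot, Prod.ext_iff]⟩
  · exact ⟨(t.2 - y, x - t.1), by simp [rot, Prod.ext_iff]⟩

theorem iso (k : Fin 4) (t : ℤ × ℤ) (p q : ℤ × ℤ) :
    dsq (rot k p + t) (rot k q + t) = dsq p q := by
  fin_cases k
  all_goals
    simp [rot, dsq]
    try ring

end GLUEx

theorem t_GLUE : S_GLUE := by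
  rintro S - ⟨Q, hQ⟩
  refine ⟨Q, fun q => fun p => rot q.1.1 p + q.1.2, ?_, ?_, ?_⟩
  · rintro ⟨⟨k, t⟩, hq⟩
    exact ⟨⟨GLUEx.inj k t, GLUEx.surj k t⟩, GLUEx.iso k t⟩
  · rintro ⟨q, hq⟩ ⟨q', hq'⟩ hne
    rw [Set.disjoint_left]
    rintro p ⟨s, hs, h1⟩ ⟨s', hs', h2⟩
    obtain ⟨x, -, hx⟩ := hQ p
    have e1 := hx (q, s) ⟨hq, hs, h1⟩
    have e2 := hx (q', s') ⟨hq', hs', h2⟩
    have e3 : (q, s) = (q', s') := e1.trans e2.symm
    exact hne (Subtype.ext (congrArg Prod.fst e3))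
  · rw [Set.eq_univ_iff_forall]
    intro p
    obtain ⟨x, ⟨hx1, hx2, hx3⟩, -⟩ := hQ p
    exact Set.mem_iUnion.2 ⟨⟨x.1, hx1⟩, x.2, hx2, hx3⟩

end R178.GT
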