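import Mathlib
import Pool.Agent.R178.GT.Defs5

namespace R178.GT

theorem t_LEE : S_LEE := by
  refine ⟨{q | q.1 = 0 ∧ (q.2.1 + 2 * q.2.2) % 5 = 0}, ?_, fun q hq => Or.inl hq.1⟩
  rintro ⟨a, b⟩
  have h : ∃ s : ℤ × ℤ, s ∈ ({((0 : ℤ), (0 : ℤ)), (1, 0), (-1, 0), (0, 1), (0, -1)} : Set (ℤ × ℤ)) ∧
      ((a - s.1) + 2 * (b - s.2)) % 5 = 0 := by
    have h5 : (a + 2 * b) % 5 = 0 ∨ (a + 2 * b) % 5 = 1 ∨ (a + 2 * b) % 5 = 2 ∨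
      (a + 2 * b) % 5 = 3 ∨ (a + 2 * b) % 5 = 4 := by omega
    rcases h5 with h | h | h | h | h
    · exact ⟨(0, 0), by simp, by simp only; omega⟩
    · exact ⟨(1, 0), by simp, by simp only; omega⟩
    · exact ⟨(0, 1), by simp, by simp only; omega⟩
    · exact ⟨(0, -1), by simp, by simp only; omega⟩
    · exact ⟨(-1, 0), by simp, by simp only; omega⟩
  obtain ⟨⟨s1, s2⟩, hs, hm⟩ := h
  refine ⟨((0, (a - s1, b - s2)), (s1, s2)), ⟨⟨rfl, hm⟩, hs, by simp [rot]⟩, ?_⟩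
  rintro ⟨⟨k, ⟨t1, t2⟩⟩, ⟨r1, r2⟩⟩ ⟨⟨hk, ht⟩, hr, heq⟩
  simp only at hk ht hr heq hm
  subst hk
  simp only [rot, Prod.mk_add_mk, Prod.mk.injEq] at heq
  obtain ⟨h1, h2⟩ := heq
  simp only [Set.mem_insert_iff, Set.mem_singleton_iff, Prod.mk.injEq] at hs hr
  have e1 : r1 = s1 ∧ r2 = s2 := by
    rcases hs with ⟨rfl, rfl⟩ | ⟨rfl, rfl⟩ | ⟨rfl, rfl⟩ | ⟨rfl, rfl⟩ | ⟨rfl, rfl⟩ <;>
    rcases hr with ⟨rfl, rfl⟩ | ⟨rfl, rfl⟩ | ⟨rfl, rfl⟩ | ⟨rfl, rfl⟩ | ⟨rfl, rfl⟩ <;>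
    first | exact ⟨rfl, rfl⟩ | (exfalso; omega)
  obtain ⟨rfl, rfl⟩ := e1
  have e2 : t1 = a - r1 := by omega
  have e3 : t2 = b - r2 := by omega
  rw [e2, e3]

end R178.GT
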