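import Mathlib
import Pool.Agent.R178.GT.Defs5

set_option autoImplicit false

namespace R178.GT

namespace LINE5x

lemma fac : ∀ (N : ℕ) (b : ℤ), b.natAbs ≤ N → b ≠ 0 →
    ∃ (k : ℕ) (c : ℤ), b = 5 ^ k * c ∧ ¬ (5 : ℤ) ∣ c := by
  intro N
  induction N with
  | zero =>
    intro b hb hb0
    exact absurd (Int.natAbs_eq_zero.mp (Nat.le_zero.mp hb)) hb0
  | succ N ih =>
    intro b hb hb0
    by_cases h : (5 : ℤ) ∣ b
    · obtain ⟨d, hd⟩ := h
      have hd0 : d ≠ 0 := by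
        rintro rfl
        exact hb0 (by rw [hd]; ring)
      obtain ⟨k, c, hc, hc5⟩ := ih d (by omega) hd0
      exact ⟨k + 1, c, by rw [hd, hc]; ring, hc5⟩
    · exact ⟨0, b, by ring, h⟩

lemma fac1 (b : ℤ) (hb : b ≠ 0) (h5 : (5 : ℤ) ∣ b) :
    ∃ (k : ℕ) (c : ℤ), 1 ≤ k ∧ b = 5 ^ k * c ∧ ¬ (5 : ℤ) ∣ c := by
  obtain ⟨k, c, hc, hc5⟩ := fac b.natAbs b le_rfl hb
  refine ⟨k, c, ?_, hc, hc5⟩
  rcases Nat.eq_zero_or_pos k with h | h
  · subst h
    exfalso
    apply hc5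
    rw [pow_zero, one_mul] at hc
    rw [← hc]
    exact h5
  · exact h

lemma swap (a b : ℤ) : L5 a b = L5 b a := by
  unfold L5
  ext x
  simp only [Set.mem_insert_iff, Set.mem_singleton_iff]
  tauto

lemma neg (a b : ℤ) : L5 a (-b) = L5 a b := by
  unfold L5
  rw [neg_neg]
  ext x
  simp only [Set.mem_insert_iff, Set.mem_singleton_iff]
  tauto

lemma img (a b : ℤ) : (fun p : ℤ × ℤ => (p.1 * 5 - p.2 * 0, p.1 * 0 + p.2 * 5)) '' L5 a b =
    L5 (5 * a) (5 * b) := by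
  unfold L5
  simp only [Set.image_insert_eq, Set.image_singleton]
  have e1 : ((0 : ℤ) * 5 - 0 * 0, (0 : ℤ) * 0 + 0 * 5) = ((0 : ℤ), (0 : ℤ)) := by norm_num
  have e2 : ∀ x : ℤ, (x * 5 - 0 * 0, x * 0 + 0 * 5) = (5 * x, (0 : ℤ)) := by
    intro x
    rw [Prod.mk.injEq]
    constructor <;> ring
  have e3 : ∀ x : ℤ, 5 * (-x) = -(5 * x) := by
    intro x; ring
  rw [e1, e2, e2, e2, e2, e3, e3]

/-- the case when 5 does not divide both -/
lemma base (h2 : S_P5A) (h3 : S_P5B) (h4 : S_P5C) (a b : ℤ) (ha : a ≠ 0) (hb : b ≠ 0)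
    (hab : a ≠ b) (hab' : a ≠ -b) (h : ¬ ((5 : ℤ) ∣ a ∧ (5 : ℤ) ∣ b)) : RT (L5 a b) := by
  by_cases h5a : (5 : ℤ) ∣ a
  · have h5b : ¬ (5 : ℤ) ∣ b := fun h' => h ⟨h5a, h'⟩
    obtain ⟨k, c, hk, hc, hc5⟩ := fac1 a ha h5a
    rw [swap, hc]
    exact h2 k b c hk h5b hc5
  · by_cases h5b : (5 : ℤ) ∣ b
    · obtain ⟨k, c, hk, hc, hc5⟩ := fac1 b hb h5b
      rw [hc]
      exact h2 k a c hk h5a hc5
    · by_cases h6 : (5 : ℤ) ∣ (b - a)
      · obtain ⟨k, c, hk, hc, hc5⟩ := fac1 (b - a) (sub_ne_zero.mpr hab.symm) h6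
        have : b = a + 5 ^ k * c := by rw [← hc]; ring
        rw [this]
        exact h3 k a c hk h5a hc5
      · by_cases h7 : (5 : ℤ) ∣ (a + b)
        · have hne : -b - a ≠ 0 := by
            intro h0
            apply hab'
            linarith
          have h8 : (5 : ℤ) ∣ (-b - a) := by
            have : -b - a = -(a + b) := by ring
            rw [this]
            exact (dvd_neg).mpr h7
          obtain ⟨k, c, hk, hc, hc5⟩ := fac1 (-b - a) hne h8
          rw [← neg]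
          have : -b = a + 5 ^ k * c := by rw [← hc]; ring
          rw [this]
          exact h3 k a c hk h5a hc5
        · refine h4 a b h5a h5b ?_ h7
          intro h9
          apply h6
          have : b - a = -(a - b) := by ring
          rw [this]
          exact (dvd_neg).mpr h9

lemma all (h1 : S_EMB) (h2 : S_P5A) (h3 : S_P5B) (h4 : S_P5C) : ∀ (N : ℕ) (a b : ℤ),
    a.natAbs ≤ N → a ≠ 0 → b ≠ 0 → a ≠ b → a ≠ -b → RT (L5 a b) := by
  intro N
  induction N with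
  | zero =>
    intro a b ha ha0
    exact absurd (Int.natAbs_eq_zero.mp (Nat.le_zero.mp ha)) ha0
  | succ N ih =>
    intro a b ha ha0 hb0 hab hab'
    by_cases h : (5 : ℤ) ∣ a ∧ (5 : ℤ) ∣ b
    · obtain ⟨⟨a', rfl⟩, ⟨b', rfl⟩⟩ := h
      have ha' : a' ≠ 0 := by
        rintro rfl
        exact ha0 (by ring)
      have hb' : b' ≠ 0 := by
        rintro rfl
        exact hb0 (by ring)
      have h5 := ih a' b' (by omega) ha' hb'
        (fun h' => hab (by rw [h'])) (fun h' => hab' (by rw [h']; ring))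
      have h6 := h1 (L5 a' b') ((5 : ℤ), (0 : ℤ)) (by simp) h5
      simp only at h6
      rw [img] at h6
      exact h6
    · exact base h2 h3 h4 a b ha0 hb0 hab hab' h

end LINE5x

theorem t_LINE5 (h1 : S_EMB) (h2 : S_P5A) (h3 : S_P5B) (h4 : S_P5C) : S_LINE5 :=
  fun a b ha hb hab hab' => LINE5x.all h1 h2 h3 h4 a.natAbs a b le_rfl ha hb hab hab'

end R178.GT
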