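import Mathlib
import Pool.Agent.R178.GT.Defs

set_option autoImplicit false

namespace R178.GT

theorem t_MAIN (h1 : S_GLUE) (h2 : S_TR) (h3 : S_COL) (h4 : S_NCOL) : S_MAIN := by
  intro S hS
  obtain ⟨p, T, hpT, rfl, hT⟩ := Finset.card_eq_succ.1 hS
  obtain ⟨x, y, z, hxy, hxz, hyz, rfl⟩ := Finset.card_eq_three.1 hT
  simp only [Finset.mem_insert, Finset.mem_singleton, not_or] at hpT
  obtain ⟨hpx, hpy, hpz⟩ := hpT
  have ha : x - p ≠ 0 := fun h => hpx (sub_eq_zero.1 h).symm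
  have hb : y - p ≠ 0 := fun h => hpy (sub_eq_zero.1 h).symm
  have hc : z - p ≠ 0 := fun h => hpz (sub_eq_zero.1 h).symm
  have hab : x - p ≠ y - p := fun h => hxy (sub_left_injective h)
  have hac : x - p ≠ z - p := fun h => hxz (sub_left_injective h)
  have hbc : y - p ≠ z - p := fun h => hyz (sub_left_injective h)
  have hRT : RT {0, x - p, y - p, z - p} := by
    by_cases hd : det (x - p) (y - p) = 0 ∧ det (y - p) (z - p) = 0 ∧ det (x - p) (z - p) = 0
    · exact h3 _ _ _ ha hb hc hab hac hbc hd.1 hd.2.1 hd.2.2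
    · exact h4 _ _ _ ha hb hc hab hac hbc hd
  have hRT2 := h2 _ p hRT
  have himg : (fun q : ℤ × ℤ => q + p) '' {0, x - p, y - p, z - p} = {p, x, y, z} := by
    simp only [Set.image_insert_eq, Set.image_singleton, zero_add, sub_add_cancel]
  rw [himg] at hRT2
  have hcoe : ((insert p ({x, y, z} : Finset (ℤ × ℤ)) : Finset (ℤ × ℤ)) : Set (ℤ × ℤ)) =
      {p, x, y, z} := by
    simp
  rw [hcoe]
  exact h1 _ ⟨p, by simp⟩ hRT2

end R178.GT
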