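import Mathlib
import Pool.Agent.R178.GT.Defs5

/-! MAIN5: a centrally symmetric 5-set is `q + {0, u, -u, w, -w}`. -/

set_option autoImplicit false

namespace R178.GT

theorem t_MAIN5 (h1 : S_GLUE) (h2 : S_TR) (h3 : S_SYM5) : S_MAIN5 := by
  intro S hS hcS
  obtain ⟨c, hc⟩ := hcS
  have hfix : ∃ q ∈ S, c - q = q := by
    by_contra hcon
    push Not at hcon
    have h := Finset.sum_involution (s := S) (f := fun _ => (1 : ZMod 2)) (fun p _ => c - p)
      (fun p _ => by decide) (fun p hp _ => hcon p hp) (fun p hp => hc p hp)
      (fun p _ => by simp)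
    rw [Finset.sum_const, hS] at h
    revert h
    decide
  obtain ⟨q, hq, hcq⟩ := hfix
  have inj : ∀ p, c - p = p → p = q := by
    intro p hp
    rw [Prod.ext_iff] at hp hcq ⊢
    simp only [Prod.fst_sub, Prod.snd_sub] at hp hcq
    constructor <;> omega
  have hcc : ∀ p, c - (c - p) = p := fun p => by simp
  have hcq2 : c = q + q := sub_eq_iff_eq_add.mp hcq
  have h4 : (S.erase q).card = 4 := by rw [Finset.card_erase_of_mem hq, hS]
  obtain ⟨p, hp⟩ : (S.erase q).Nonempty := by
    rw [← Finset.card_pos, h4]; norm_num
  obtain ⟨hpq, hpS⟩ := Finset.mem_erase.mp hp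
  have hp' : c - p ≠ p := fun h => hpq (inj p h)
  have hpc : c - p ≠ q := by
    intro h
    apply hpq
    rw [← hcc p, h, hcq]
  have h3' : ((S.erase q).erase p).card = 3 := by
    rw [Finset.card_erase_of_mem hp, h4]
  have hmem : c - p ∈ (S.erase q).erase p :=
    Finset.mem_erase.mpr ⟨hp', Finset.mem_erase.mpr ⟨hpc, hc p hpS⟩⟩
  have h2' : (((S.erase q).erase p).erase (c - p)).card = 2 := by
    rw [Finset.card_erase_of_mem hmem, h3']
  obtain ⟨r, hr⟩ : (((S.erase q).erase p).erase (c - p)).Nonempty := by
    rw [← Finset.card_pos, h2']; norm_num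
  have hr' := hr
  simp only [Finset.mem_erase] at hr'
  obtain ⟨hrcp, hrp, hrq, hrS⟩ := hr'
  have hrr : c - r ≠ r := fun h => hrq (inj r h)
  have hcr : c - r ∈ ((S.erase q).erase p).erase (c - p) := by
    simp only [Finset.mem_erase]
    refine ⟨?_, ?_, ?_, hc r hrS⟩
    · intro h
      apply hrp
      rw [← hcc r, h, hcc]
    · intro h
      apply hrcp
      rw [← hcc r, h]
    · intro h
      apply hrq
      rw [← hcc r, h, hcq]
  have hpair : ({r, c - r} : Finset (ℤ × ℤ)) = ((S.erase q).erase p).erase (c - p) := by
    apply Finset.eq_of_subset_of_card_le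
    · intro x hx
      rw [Finset.mem_insert, Finset.mem_singleton] at hx
      rcases hx with rfl | rfl
      · exact hr
      · exact hcr
    · rw [h2', Finset.card_pair (fun h => hrr h.symm)]
  have hSet : (S : Set (ℤ × ℤ)) = (fun x => x + q) ''
      {0, p - q, -(p - q), r - q, -(r - q)} := by
    have e1 : -(p - q) + q = c - p := by
      rw [hcq2]; abel
    have e2 : -(r - q) + q = c - r := by
      rw [hcq2]; abel
    simp only [Set.image_insert_eq, Set.image_singleton, zero_add, sub_add_cancel, e1, e2]
    ext x
    simp only [Finset.mem_coe, Set.mem_insert_iff, Set.mem_singleton_iff]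
    constructor
    · intro hx
      by_cases hxq : x = q
      · exact Or.inl hxq
      by_cases hxp : x = p
      · exact Or.inr (Or.inl hxp)
      by_cases hxc : x = c - p
      · exact Or.inr (Or.inr (Or.inl hxc))
      have hx' : x ∈ ((S.erase q).erase p).erase (c - p) := by
        simp only [Finset.mem_erase]
        exact ⟨hxc, hxp, hxq, hx⟩
      rw [← hpair, Finset.mem_insert, Finset.mem_singleton] at hx'
      exact Or.inr (Or.inr (Or.inr hx'))
    · rintro (rfl | rfl | rfl | rfl | rfl)
      · exact hq
      · exact hpS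
      · exact hc p hpS
      · exact hrS
      · exact hc r hrS
  rw [hSet]
  apply h1
  · exact ⟨q, 0, by simp, by simp⟩
  · apply h2
    apply h3
    · exact sub_ne_zero.mpr hpq
    · exact sub_ne_zero.mpr hrq
    · intro h
      exact hrp (sub_left_injective h).symm
    · intro h
      apply hrcp
      have hcc2 : c = q + q := by
        have := hcq
        rw [sub_eq_iff_eq_add] at this
        exact this
      rw [hcc2]
      have : p - q + (r - q) = 0 := by rw [h]; abel
      have h5 : r = q + q - p + (p - q + (r - q)) := by abel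
      rw [this, add_zero] at h5
      exact h5

end R178.GT
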