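import Mathlib
import Pool.Agent.R178.GT.Defs

/-!
# GT-NCOL: non-collinear quadruples, case distinction
-/

set_option autoImplicit false

namespace R178.GT

namespace NCOLx

theorem par {a b c : ℤ × ℤ} (ha : a ≠ 0) (h1 : det a b = 0) (h2 : det a c = 0) : det b c = 0 := by
  unfold det at *
  have e1 : a.1 * (b.1 * c.2 - b.2 * c.1) = 0 := by linear_combination b.1 * h2 - c.1 * h1
  have e2 : a.2 * (b.1 * c.2 - b.2 * c.1) = 0 := by linear_combination b.2 * h2 - c.2 * h1
  rcases mul_eq_zero.1 e1 with h | h
  · rcases mul_eq_zero.1 e2 with h' | h'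
    · exact absurd (Prod.ext h h') ha
    · exact h'
  · exact h

theorem det_neg_swap (a b : ℤ × ℤ) : det b a = - det a b := by
  unfold det; ring

theorem exV (m : ℤ) (hm : m ≠ 0) : ∃ i, V i m := by
  obtain ⟨n, k, hk, hmk⟩ := (FiniteMultiplicity.of_not_isUnit (a := (2:ℤ)) (b := m)
    (by decide) hm).exists_eq_pow_mul_and_not_dvd |> fun ⟨c, h1, h2⟩ =>
      (⟨_, c, h2, h1⟩ : ∃ n c, ¬ (2:ℤ) ∣ c ∧ m = 2 ^ n * c)
  refine ⟨n, k / 2, ?_⟩
  have h3 : k = 2 * (k / 2) + 1 := by omega
  rw [← h3]; exact hmk

theorem V_neg {i : ℕ} {m : ℤ} (h : V i m) : V i (-m) := by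
  obtain ⟨u, hu⟩ := h
  exact ⟨-u - 1, by rw [hu]; ring⟩

end NCOLx

open NCOLx in
theorem t_NCOL (h1 : S_TRA) (h2 : S_PAR) (h3 : S_ODD) : S_NCOL := by
  intro a b c ha hb hc hab hac hbc hdet
  have s1 : ({0, b, a, c} : Set (ℤ × ℤ)) = {0, a, b, c} := by
    ext p; simp only [Set.mem_insert_iff, Set.mem_singleton_iff]; tauto
  have s2 : ({0, c, b, a} : Set (ℤ × ℤ)) = {0, a, b, c} := by
    ext p; simp only [Set.mem_insert_iff, Set.mem_singleton_iff]; tauto
  have s3 : ({0, a, c, b} : Set (ℤ × ℤ)) = {0, a, b, c} := by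
    ext p; simp only [Set.mem_insert_iff, Set.mem_singleton_iff]; tauto
  have s4 : ({0, b, c, a} : Set (ℤ × ℤ)) = {0, a, b, c} := by
    ext p; simp only [Set.mem_insert_iff, Set.mem_singleton_iff]; tauto
  have dX : det a (c - b) = det a c - det a b := by
    simp only [det, Prod.fst_sub, Prod.snd_sub]; ring
  have dY : det b (c - a) = det b c + det a b := by
    simp only [det, Prod.fst_sub, Prod.snd_sub]; ring
  have dZ : det c (a - b) = det b c - det a c := by
    simp only [det, Prod.fst_sub, Prod.snd_sub]; ring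
  by_cases hX : det a c - det a b = 0
  · by_cases hal : det a b = 0
    · exfalso
      have hga : det a c = 0 := by rw [hal] at hX; linarith
      exact hdet ⟨hal, par ha hal hga, hga⟩
    · exact h1 a b c ha hbc (by rw [dX, hX]) hal
  by_cases hY : det b c + det a b = 0
  · by_cases hal : det a b = 0
    · exfalso
      have hbe : det b c = 0 := by rw [hal] at hY; linarith
      have hba : det b a = 0 := by rw [det_neg_swap, hal]; rfl
      exact hdet ⟨hal, hbe, par hb hba hbe⟩
    · rw [← s1]
      exact h1 b a c hb hac (by rw [dY, hY]) (by rw [det_neg_swap a b]; exact neg_ne_zero.2 hal)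
  by_cases hZ : det b c - det a c = 0
  · by_cases hbe : det b c = 0
    · exfalso
      have hga : det a c = 0 := by rw [hbe] at hZ; linarith
      have hca : det c a = 0 := by rw [det_neg_swap, hga]; rfl
      have hcb : det c b = 0 := by rw [det_neg_swap, hbe]; rfl
      exact hdet ⟨par hc hca hcb, hbe, hga⟩
    · rw [← s2]
      exact h1 c b a hc hab.symm (by rw [dZ, hZ])
        (by rw [det_neg_swap b c]; exact neg_ne_zero.2 hbe)
  obtain ⟨x, hx⟩ := exV _ hX
  obtain ⟨y, hy⟩ := exV _ hY
  obtain ⟨z, hz'⟩ := exV _ hZ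
  have hz : V z (det a c - det b c) := by
    have := V_neg hz'
    rwa [neg_sub] at this
  by_cases hxy : x = y
  · by_cases hxz : x = z
    · subst hxy
      subst hxz
      obtain ⟨u, hu⟩ := hx
      obtain ⟨v, hv⟩ := hy
      obtain ⟨w, hw⟩ := hz
      rcases x with _ | k
      · exfalso
        simp only [pow_zero, one_mul] at hu hv hw
        omega
      · have e1 : 2 * det a b = 2 * (2 ^ k * (2 * (v - u + w) + 1)) := by
          linear_combination hv - hu + hw
        have e2 : 2 * det b c = 2 * (2 ^ k * (2 * (u + v - w) + 1)) := by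
          linear_combination hu + hv - hw
        have e3 : 2 * det a c = 2 * (2 ^ k * (2 * (u + v + w + 1) + 1)) := by
          linear_combination hu + hv + hw
        refine h3 k a b c ⟨v - u + w, ?_⟩ ⟨u + v - w, ?_⟩ ⟨u + v + w + 1, ?_⟩
        · exact mul_left_cancel₀ (by norm_num) e1
        · exact mul_left_cancel₀ (by norm_num) e2
        · exact mul_left_cancel₀ (by norm_num) e3
    · rw [← s3]
      refine h2 x z a c b (a + c - b) hxz ?_ ?_ ?_
      · have : det (a + c - b) a = -(det a c - det a b) := by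
          simp only [det, Prod.fst_sub, Prod.snd_sub, Prod.fst_add, Prod.snd_add]; ring
        rw [this]; exact V_neg hx
      · have : det (a + c - b) c = det a c - det b c := by
          simp only [det, Prod.fst_sub, Prod.snd_sub, Prod.fst_add, Prod.snd_add]; ring
        rw [this]; exact hz
      · simp only [det, Prod.fst_sub, Prod.snd_sub, Prod.fst_add, Prod.snd_add]; ring
  · refine h2 x y a b c (a + b - c) hxy ?_ ?_ ?_
    · have : det (a + b - c) a = det a c - det a b := by
        simp only [det, Prod.fst_sub, Prod.snd_sub, Prod.fst_add, Prod.snd_add]; ring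
      rw [this]; exact hx
    · have : det (a + b - c) b = det b c + det a b := by
        simp only [det, Prod.fst_sub, Prod.snd_sub, Prod.fst_add, Prod.snd_add]; ring
      rw [this]; exact hy
    · simp only [det, Prod.fst_sub, Prod.snd_sub, Prod.fst_add, Prod.snd_add]; ring

end R178.GT
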