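import Mathlib
import Pool.Agent.R178.GT.Defs

/-! GT-ODD: three determinants of the same valuation. -/

set_option autoImplicit false

namespace R178.GT

namespace ODDx

theorem exu {S : Set (ℤ × ℤ)} {Q : Set (Fin 4 × (ℤ × ℤ))} (p s : ℤ × ℤ) (hQ : ∀ q ∈ Q, q.1 = 0)
    (hs : s ∈ S) (hq : ((0 : Fin 4), p - s) ∈ Q)
    (hu : ∀ s' ∈ S, ((0 : Fin 4), p - s') ∈ Q → s' = s) :
    ∃! x : (Fin 4 × (ℤ × ℤ)) × (ℤ × ℤ), x.1 ∈ Q ∧ x.2 ∈ S ∧ rot x.1.1 x.2 + x.1.2 = p := by
  refine ⟨((0, p - s), s), ⟨hq, hs, by simp [rot]⟩, ?_⟩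
  rintro ⟨⟨k, t⟩, s'⟩ ⟨h1, h2, h3⟩
  have hk : k = 0 := hQ _ h1
  subst hk
  have ht : t = p - s' := by
    have h4 : s' + t = p := h3
    rw [← h4]; simp
  subst ht
  have := hu s' h2 h1
  subst this
  rfl

end ODDx

theorem t_ODD (hb : S_BIT) : S_ODD := by
  intro i a b c h1 h2 h3
  obtain ⟨β, hβ, -⟩ := hb i
  have hm : ∀ m, V i m → ∀ z, β (z - m) = !β z := by
    intro m hV z
    have := hβ m hV (z - m)
    rw [sub_add_cancel] at this
    rw [this]; simp
  have hp : ∀ m, V i m → ∀ z, β (z - -m) = !β z := by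
    intro m hV z
    rw [sub_neg_eq_add]
    exact hβ m hV z
  refine ⟨{q | q.1 = 0 ∧ β (det a q.2) = false ∧ β (det b q.2) = false}, fun p => ?_⟩
  have hsub : ∀ u s : ℤ × ℤ, det u (p - s) = det u p - det u s := by
    intro u s; simp only [det, Prod.fst_sub, Prod.snd_sub]; ring
  have A0 : β (det a (p - 0)) = β (det a p) := by rw [sub_zero]
  have Aa : β (det a (p - a)) = β (det a p) := by
    rw [hsub, show det a a = 0 by simp only [det]; ring, sub_zero]
  have Ab : β (det a (p - b)) = !β (det a p) := by rw [hsub, hm _ h1]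
  have Ac : β (det a (p - c)) = !β (det a p) := by rw [hsub, hm _ h3]
  have B0 : β (det b (p - 0)) = β (det b p) := by rw [sub_zero]
  have Ba : β (det b (p - a)) = !β (det b p) := by
    rw [hsub, show det b a = -det a b by simp only [det]; ring, hp _ h1]
  have Bb : β (det b (p - b)) = β (det b p) := by
    rw [hsub, show det b b = 0 by simp only [det]; ring, sub_zero]
  have Bc : β (det b (p - c)) = !β (det b p) := by rw [hsub, hm _ h2]
  cases hA : β (det a p) <;> cases hB : β (det b p) <;> rw [hA] at A0 Aa Ab Ac <;>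
    rw [hB] at B0 Ba Bb Bc
  · refine ODDx.exu p 0 (fun q hq => hq.1) (by simp) ⟨rfl, A0, B0⟩ ?_
    rintro s' hs' ⟨-, x1, x2⟩
    simp only [Set.mem_insert_iff, Set.mem_singleton_iff] at hs'
    simp only at x1 x2
    rcases hs' with h | h | h | h
    · exact h
    · rw [h, Ba] at x2; simp at x2
    · rw [h, Ab] at x1; simp at x1
    · rw [h, Ac] at x1; simp at x1
  · refine ODDx.exu p a (fun q hq => hq.1) (by simp) ⟨rfl, Aa, Ba⟩ ?_
    rintro s' hs' ⟨-, x1, x2⟩
    simp only [Set.mem_insert_iff, Set.mem_singleton_iff] at hs'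
    simp only at x1 x2
    rcases hs' with h | h | h | h
    · rw [h, B0] at x2; simp at x2
    · exact h
    · rw [h, Ab] at x1; simp at x1
    · rw [h, Ac] at x1; simp at x1
  · refine ODDx.exu p b (fun q hq => hq.1) (by simp) ⟨rfl, Ab, Bb⟩ ?_
    rintro s' hs' ⟨-, x1, x2⟩
    simp only [Set.mem_insert_iff, Set.mem_singleton_iff] at hs'
    simp only at x1 x2
    rcases hs' with h | h | h | h
    · rw [h, A0] at x1; simp at x1
    · rw [h, Aa] at x1; simp at x1
    · exact h
    · rw [h, Bc] at x2; simp at x2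
  · refine ODDx.exu p c (fun q hq => hq.1) (by simp) ⟨rfl, Ac, Bc⟩ ?_
    rintro s' hs' ⟨-, x1, x2⟩
    simp only [Set.mem_insert_iff, Set.mem_singleton_iff] at hs'
    simp only at x1 x2
    rcases hs' with h | h | h | h
    · rw [h, A0] at x1; simp at x1
    · rw [h, Aa] at x1; simp at x1
    · rw [h, Bb] at x2; simp at x2
    · exact h

end R178.GT
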