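import Mathlib
import Pool.Agent.R178.GT.Defs

/-! Piece ONE: four integers on a line. -/
namespace R178.GT

namespace ONEx

/-- the statement for four integers -/
def Q (x y z w : ℤ) : Prop := RT {((x : ℤ), (0 : ℤ)), (y, 0), (z, 0), (w, 0)}

theorem Q_of_eq {x y z w x' y' z' w' : ℤ} (h : Q x y z w) (h1 : x = x') (h2 : y = y')
    (h3 : z = z') (h4 : w = w') : Q x' y' z' w' := by
  subst h1; subst h2; subst h3; subst h4; exact h

theorem Q_swap12 {x y z w : ℤ} (h : Q x y z w) : Q y x z w := by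
  unfold Q at h ⊢
  rw [Set.insert_comm]
  exact h

theorem Q_swap23 {x y z w : ℤ} (h : Q x y z w) : Q x z y w := by
  unfold Q at h ⊢
  rw [Set.insert_comm ((z : ℤ), (0 : ℤ)) (y, 0)]
  exact h

theorem Q_swap34 {x y z w : ℤ} (h : Q x y z w) : Q x y w z := by
  unfold Q at h ⊢
  rw [Set.pair_comm ((w : ℤ), (0 : ℤ)) (z, 0)]
  exact h

theorem Q_tr (h1 : S_TR) {x y z w : ℤ} (c : ℤ) (h : Q x y z w) :
    Q (x + c) (y + c) (z + c) (w + c) := by
  have := h1 _ (c, 0) h
  unfold Q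
  simpa [Set.image_insert_eq, Set.image_singleton] using this

theorem Q_dbl (h2 : S_EMB) {x y z w : ℤ} (h : Q x y z w) :
    Q (x * 2) (y * 2) (z * 2) (w * 2) := by
  have := h2 _ (2, 0) (by simp) h
  unfold Q
  simpa [Set.image_insert_eq, Set.image_singleton] using this

theorem exV (m : ℤ) (hm : m ≠ 0) : ∃ i, V i m := by
  obtain ⟨i, k, hk, hmk⟩ := Nat.exists_eq_two_pow_mul_odd (Int.natAbs_ne_zero.2 hm)
  obtain ⟨r, hr⟩ := hk
  refine ⟨i, ?_⟩
  rcases Int.natAbs_eq m with h | h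
  · refine ⟨r, ?_⟩
    rw [h, hmk, hr]
    push_cast
    ring
  · refine ⟨-r - 1, ?_⟩
    rw [h, hmk, hr]
    push_cast
    ring

theorem V_neg {i : ℕ} {m : ℤ} (h : V i m) : V i (-m) := by
  obtain ⟨u, hu⟩ := h
  exact ⟨-u - 1, by rw [hu]; ring⟩

theorem V_pos {i : ℕ} {m : ℤ} (h : V i m) (hm : m % 2 = 0) : 1 ≤ i := by
  rcases i with _ | i
  · obtain ⟨u, hu⟩ := h
    rw [pow_zero, one_mul] at hu
    omega
  · omega

theorem V_diff {i : ℕ} {p q : ℤ} (hp : V i p) (hq : V i q) (hne : p ≠ q) :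
    ∃ k, i < k ∧ V k (q - p) := by
  obtain ⟨u, hu⟩ := hp
  obtain ⟨v, hv⟩ := hq
  have hne' : v - u ≠ 0 := by
    intro h
    apply hne
    rw [hu, hv]
    have : v = u := by omega
    rw [this]
  obtain ⟨k, s, hs⟩ := exV _ hne'
  refine ⟨i + 1 + k, by omega, s, ?_⟩
  have e : q - p = 2 ^ (i + 1) * (v - u) := by
    rw [hu, hv, pow_succ]
    ring
  rw [e, hs, pow_add]
  ring

theorem L31 (h1 : S_TR) (h5 : S_T31) (x y z w : ℤ) (hxy : x ≠ y) (hxz : x ≠ z) (hyz : y ≠ z)
    (e1 : (y - x) % 2 = 0) (e2 : (z - x) % 2 = 0) (e3 : (w - x) % 2 = 1) : Q x y z w := by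
  obtain ⟨i, hi⟩ := exV (y - x) (by omega)
  obtain ⟨j, hj⟩ := exV (z - x) (by omega)
  have hi1 := V_pos hi e1
  have hj1 := V_pos hj e2
  rcases lt_trichotomy i j with h | h | h
  · have := h5 i j (y - x) (z - x) (w - x) hi1 h hi hj e3
    have h' : Q 0 (z - x) (y - x) (w - x) := this
    exact Q_of_eq (Q_tr h1 x (Q_swap23 h')) (by ring) (by ring) (by ring) (by ring)
  · subst h
    obtain ⟨k, hk, hk'⟩ := V_diff hi hj (by omega)
    have hm : V i (x - y) := by
      have := V_neg hi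
      rwa [neg_sub] at this
    have hn : V k (z - y) := by
      have e : z - x - (y - x) = z - y := by ring
      rwa [e] at hk'
    have := h5 i k (x - y) (z - y) (w - y) hi1 hk hm hn (by omega)
    have h' : Q 0 (z - y) (x - y) (w - y) := this
    exact Q_of_eq (Q_tr h1 y (Q_swap12 (Q_swap23 h'))) (by ring) (by ring) (by ring) (by ring)
  · have := h5 j i (z - x) (y - x) (w - x) hj1 h hj hi e3
    have h' : Q 0 (y - x) (z - x) (w - x) := this
    exact Q_of_eq (Q_tr h1 x h') (by ring) (by ring) (by ring) (by ring)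

theorem L22 (h1 : S_TR) (h3 : S_T22E) (h4 : S_T22) (x y z w : ℤ) (hxy : x ≠ y) (hzw : z ≠ w)
    (e1 : (y - x) % 2 = 0) (e2 : (w - z) % 2 = 0) (e3 : (z - x) % 2 = 1) : Q x y z w := by
  obtain ⟨i, hi⟩ := exV (y - x) (by omega)
  obtain ⟨j, hj⟩ := exV (w - z) (by omega)
  have hi1 := V_pos hi e1
  have hj1 := V_pos hj e2
  rcases lt_trichotomy i j with h | h | h
  · have := h4 i j (y - x) (w - z) (z - x) hi1 h hi hj e3
    have h' : Q 0 (y - x) (z - x) (z - x + (w - z)) := this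
    exact Q_of_eq (Q_tr h1 x h') (by ring) (by ring) (by ring) (by ring)
  · subst h
    have := h3 i (y - x) (w - z) (z - x) hi1 hi hj e3
    have h' : Q 0 (y - x) (z - x) (z - x + (w - z)) := this
    exact Q_of_eq (Q_tr h1 x h') (by ring) (by ring) (by ring) (by ring)
  · have := h4 j i (w - z) (y - x) (x - z) hj1 h hj hi (by omega)
    have h' : Q 0 (w - z) (x - z) (x - z + (y - x)) := this
    have h'' : Q z w x y :=
      Q_of_eq (Q_tr h1 z h') (by ring) (by ring) (by ring) (by ring)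
    exact Q_swap23 (Q_swap12 (Q_swap34 (Q_swap23 h''))) 

theorem all (h1 : S_TR) (h2 : S_EMB) (h3 : S_T22E) (h4 : S_T22) (h5 : S_T31) :
    ∀ (N : ℕ) (x y z w : ℤ), (y - x).natAbs ≤ N → x ≠ y → x ≠ z → x ≠ w → y ≠ z → y ≠ w →
      z ≠ w → Q x y z w := by
  intro N
  induction N with
  | zero =>
    intro x y z w hN hxy
    omega
  | succ N ih =>
    intro x y z w hN hxy hxz hxw hyz hyw hzw
    rcases Int.emod_two_eq_zero_or_one (y - x) with p1 | p1 <;>
      rcases Int.emod_two_eq_zero_or_one (z - x) with p2 | p2 <;>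
        rcases Int.emod_two_eq_zero_or_one (w - x) with p3 | p3
    · -- all of the same parity
      have e1 : (y - x) / 2 * 2 = y - x := by omega
      have e2 : (z - x) / 2 * 2 = z - x := by omega
      have e3 : (w - x) / 2 * 2 = w - x := by omega
      have h := ih 0 ((y - x) / 2) ((z - x) / 2) ((w - x) / 2) (by omega) (by omega) (by omega)
        (by omega) (by omega) (by omega) (by omega)
      exact Q_of_eq (Q_tr h1 x (Q_dbl h2 h)) (by ring) (by rw [e1]; ring) (by rw [e2]; ring)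
        (by rw [e3]; ring)
    · exact L31 h1 h5 x y z w hxy hxz hyz p1 p2 p3
    · exact Q_swap34 (L31 h1 h5 x y w z hxy hxw hyw p1 p3 p2)
    · exact L22 h1 h3 h4 x y z w hxy hzw p1 (by omega) p2
    · exact Q_swap23 (Q_swap34 (L31 h1 h5 x z w y hxz hxw hzw p2 p3 p1))
    · exact Q_swap23 (L22 h1 h3 h4 x z y w hxz hyw p2 (by omega) p1)
    · exact Q_swap34 (Q_swap23 (L22 h1 h3 h4 x w y z hxw hyz p3 (by omega) p1))
    · exact Q_swap12 (Q_swap23 (Q_swap34 (L31 h1 h5 y z w x hyz hyw hzw (by omega) (by omega)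
        (by omega))))

end ONEx

theorem t_ONE (h1 : S_TR) (h2 : S_EMB) (h3 : S_T22E) (h4 : S_T22) (h5 : S_T31) : S_ONE := by
  intro a b c ha hb hc hab hac hbc
  exact ONEx.all h1 h2 h3 h4 h5 _ 0 a b c le_rfl (Ne.symm ha) (Ne.symm hb) (Ne.symm hc) hab hac hbc

end R178.GT
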