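import Pool.Agent.R178.GT.Defs

set_option autoImplicit false

namespace R178.GT

/-- tilings for a set on the line -/
def O4_RL (T : Set ℤ) : Prop := RT ((fun x : ℤ => (x, (0 : ℤ))) '' T)

theorem O4_tr (hTR : S_TR) {T : Set ℤ} (e : ℤ) (h : O4_RL T) :
    O4_RL ((fun t => t + e) '' T) := by
  have h1 := hTR _ (e, 0) h
  unfold O4_RL
  rw [Set.image_image] at h1 ⊢
  convert h1 using 2
  skip
  simp

theorem O4_sc (hE : S_EMB) {T : Set ℤ} (h : O4_RL T) :
    O4_RL ((fun t => t * 2) '' T) := by
  have h1 := hE _ (2, 0) (by simp) h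
  unfold O4_RL
  rw [Set.image_image] at h1 ⊢
  convert h1 using 2
  skip
  simp

theorem O4_V (m : ℤ) (hm : m ≠ 0) : ∃ i, V i m := by
  obtain ⟨k, r, hr, h⟩ := Nat.exists_eq_two_pow_mul_odd (n := m.natAbs) (by omega)
  obtain ⟨t, ht⟩ := hr
  have hc : ((m.natAbs : ℕ) : ℤ) = 2 ^ k * (2 * (t : ℤ) + 1) := by
    rw [h, ht]; push_cast; ring
  refine ⟨k, ?_⟩
  rcases Int.natAbs_eq m with h1 | h1
  · exact ⟨t, by rw [h1]; rw [hc]⟩
  · exact ⟨-(t : ℤ) - 1, by rw [h1, hc]; ring⟩

theorem O4_V1 {m : ℤ} {i : ℕ} (h : V i m) (he : m % 2 = 0) : 1 ≤ i := by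
  rcases Nat.eq_zero_or_pos i with h0 | h0
  · subst h0
    obtain ⟨u, hu⟩ := h
    rw [pow_zero, one_mul] at hu
    omega
  · exact h0

theorem O4_Vneg {m : ℤ} {i : ℕ} (h : V i m) : V i (-m) := by
  obtain ⟨u, hu⟩ := h
  exact ⟨-u - 1, by rw [hu]; ring⟩

theorem O4_Vadd {m n : ℤ} {i : ℕ} (h : V i m) (h' : V i n) (hne : m + n ≠ 0) :
    ∃ j, i < j ∧ V j (m + n) := by
  obtain ⟨u, hu⟩ := h
  obtain ⟨v, hv⟩ := h'
  have h1 : m + n = 2 ^ (i + 1) * (u + v + 1) := by rw [hu, hv]; ring
  have h2 : u + v + 1 ≠ 0 := by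
    intro h0
    rw [h0, mul_zero] at h1
    exact hne h1
  obtain ⟨k, w, hw⟩ := O4_V _ h2
  exact ⟨i + 1 + k, by omega, w, by rw [h1, hw, pow_add _ (i + 1) k]; ring⟩

theorem O4_22 (hE : S_T22E) (h22 : S_T22) (hTR : S_TR) (x x' y y' : ℤ) (hx : x ≠ x')
    (hy : y ≠ y') (hxe : (x' - x) % 2 = 0) (hye : (y' - y) % 2 = 0) (ho : (y - x) % 2 = 1) :
    O4_RL {x, x', y, y'} := by
  obtain ⟨i, hi⟩ := O4_V (x' - x) (by omega)
  obtain ⟨j, hj⟩ := O4_V (y' - y) (by omega)
  have hi1 := O4_V1 hi hxe
  have hj1 := O4_V1 hj hye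
  rcases lt_trichotomy i j with hij | hij | hij
  · have h := h22 i j (x' - x) (y' - y) (y - x) hi1 hij hi hj ho
    have h1 : O4_RL {0, x' - x, y - x, y - x + (y' - y)} := by
      unfold O4_RL
      rw [Set.image_insert_eq, Set.image_insert_eq, Set.image_insert_eq, Set.image_singleton]
      exact h
    have h2 := O4_tr hTR x h1
    rw [Set.image_insert_eq, Set.image_insert_eq, Set.image_insert_eq, Set.image_singleton] at h2
    convert h2 using 1
    ext t
    simp only [Set.mem_insert_iff, Set.mem_singleton_iff]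
    omega
  · subst hij
    have h := hE i (x' - x) (y' - y) (y - x) hi1 hi hj ho
    have h1 : O4_RL {0, x' - x, y - x, y - x + (y' - y)} := by
      unfold O4_RL
      rw [Set.image_insert_eq, Set.image_insert_eq, Set.image_insert_eq, Set.image_singleton]
      exact h
    have h2 := O4_tr hTR x h1
    rw [Set.image_insert_eq, Set.image_insert_eq, Set.image_insert_eq, Set.image_singleton] at h2
    convert h2 using 1
    ext t
    simp only [Set.mem_insert_iff, Set.mem_singleton_iff]
    omega
  · have h := h22 j i (y' - y) (x' - x) (x - y) hj1 hij hj hi (by omega)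
    have h1 : O4_RL {0, y' - y, x - y, x - y + (x' - x)} := by
      unfold O4_RL
      rw [Set.image_insert_eq, Set.image_insert_eq, Set.image_insert_eq, Set.image_singleton]
      exact h
    have h2 := O4_tr hTR y h1
    rw [Set.image_insert_eq, Set.image_insert_eq, Set.image_insert_eq, Set.image_singleton] at h2
    convert h2 using 1
    ext t
    simp only [Set.mem_insert_iff, Set.mem_singleton_iff]
    omega

theorem O4_31b (h31 : S_T31) (hTR : S_TR) (i j : ℕ) (x m n c : ℤ) (hi1 : 1 ≤ i) (hij : i < j)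
    (hi : V i (m - x)) (hj : V j (n - x)) (ho : (c - x) % 2 = 1) : O4_RL {x, n, m, c} := by
  have h := h31 i j (m - x) (n - x) (c - x) hi1 hij hi hj ho
  have h1 : O4_RL {0, n - x, m - x, c - x} := by
    unfold O4_RL
    rw [Set.image_insert_eq, Set.image_insert_eq, Set.image_insert_eq, Set.image_singleton]
    exact h
  have h2 := O4_tr hTR x h1
  rw [Set.image_insert_eq, Set.image_insert_eq, Set.image_insert_eq, Set.image_singleton] at h2
  convert h2 using 1
  ext t
  simp only [Set.mem_insert_iff, Set.mem_singleton_iff]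
  omega

theorem O4_31 (h31 : S_T31) (hTR : S_TR) (e1 e2 e3 o : ℤ) (h12 : e1 ≠ e2)
    (h13 : e1 ≠ e3) (h23 : e2 ≠ e3) (he2 : (e2 - e1) % 2 = 0) (he3 : (e3 - e1) % 2 = 0)
    (ho : (o - e1) % 2 = 1) : O4_RL {e1, e2, e3, o} := by
  obtain ⟨i, hi⟩ := O4_V (e2 - e1) (by omega)
  obtain ⟨j, hj⟩ := O4_V (e3 - e2) (by omega)
  have hi1 := O4_V1 hi he2
  have hj1 := O4_V1 hj (by omega)
  rcases lt_trichotomy i j with hij | hij | hij
  · -- base e2, m = e1, n = e3
    have h := O4_31b h31 hTR i j e2 e1 e3 o hi1 hij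
      (by have := O4_Vneg hi; rwa [show -(e2 - e1) = e1 - e2 by ring] at this) hj (by omega)
    convert h using 1
    ext t
    simp only [Set.mem_insert_iff, Set.mem_singleton_iff]
    omega
  · subst hij
    obtain ⟨k, hk, hV⟩ := O4_Vadd hi hj (by omega)
    rw [show e2 - e1 + (e3 - e2) = e3 - e1 by ring] at hV
    have h := O4_31b h31 hTR i k e1 e2 e3 o hi1 hk hi hV (by omega)
    convert h using 1
    ext t
    simp only [Set.mem_insert_iff, Set.mem_singleton_iff]
    omega
  · have h := O4_31b h31 hTR j i e2 e3 e1 o hj1 hij hj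
      (by have := O4_Vneg hi; rwa [show -(e2 - e1) = e1 - e2 by ring] at this) (by omega)
    convert h using 1
    ext t
    simp only [Set.mem_insert_iff, Set.mem_singleton_iff]
    omega

theorem O4_all (hE : S_T22E) (h22 : S_T22) (h31 : S_T31) (hTR : S_TR) (hEMB : S_EMB) (N : ℕ) :
    ∀ a b c : ℤ, a ≠ 0 → b ≠ 0 → c ≠ 0 → a ≠ b → a ≠ c → b ≠ c → a.natAbs ≤ N →
    O4_RL {0, a, b, c} := by
  induction N using Nat.strong_induction_on with
  | _ N ih =>
    intro a b c ha hb hc hab hac hbc hN
    have fin : ∀ {T : Set ℤ}, O4_RL T → T = {0, a, b, c} → O4_RL {0, a, b, c} := by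
      intro T hT hTe
      rw [← hTe]; exact hT
    rcases Int.emod_two_eq_zero_or_one a with pa | pa <;>
    rcases Int.emod_two_eq_zero_or_one b with pb | pb <;>
    rcases Int.emod_two_eq_zero_or_one c with pc | pc
    · -- all even
      have h1 := ih (N - 1) (by omega) (a / 2) (b / 2) (c / 2) (by omega) (by omega) (by omega)
        (by omega) (by omega) (by omega) (by omega)
      have h2 := O4_sc hEMB h1
      rw [Set.image_insert_eq, Set.image_insert_eq, Set.image_insert_eq, Set.image_singleton] at h2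
      refine fin h2 ?_
      ext t
      simp only [Set.mem_insert_iff, Set.mem_singleton_iff]
      omega
    · refine fin (O4_31 h31 hTR 0 a b c (by omega) (by omega) (by omega) (by omega) (by omega)
        (by omega)) ?_
      ext t
      simp only [Set.mem_insert_iff, Set.mem_singleton_iff]
    · refine fin (O4_31 h31 hTR 0 a c b (by omega) (by omega) (by omega) (by omega) (by omega)
        (by omega)) ?_
      ext t
      simp only [Set.mem_insert_iff, Set.mem_singleton_iff]
      omega
    · refine fin (O4_22 hE h22 hTR 0 a b c (by omega) (by omega) (by omega) (by omega)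
        (by omega)) ?_
      ext t
      simp only [Set.mem_insert_iff, Set.mem_singleton_iff]
    · refine fin (O4_31 h31 hTR 0 b c a (by omega) (by omega) (by omega) (by omega) (by omega)
        (by omega)) ?_
      ext t
      simp only [Set.mem_insert_iff, Set.mem_singleton_iff]
      omega
    · refine fin (O4_22 hE h22 hTR 0 b a c (by omega) (by omega) (by omega) (by omega)
        (by omega)) ?_
      ext t
      simp only [Set.mem_insert_iff, Set.mem_singleton_iff]
      omega
    · refine fin (O4_22 hE h22 hTR 0 c a b (by omega) (by omega) (by omega) (by omega)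
        (by omega)) ?_
      ext t
      simp only [Set.mem_insert_iff, Set.mem_singleton_iff]
      omega
    · refine fin (O4_31 h31 hTR a b c 0 (by omega) (by omega) (by omega) (by omega) (by omega)
        (by omega)) ?_
      ext t
      simp only [Set.mem_insert_iff, Set.mem_singleton_iff]
      omega

theorem t_ONE499 (hE : S_T22E) (h22 : S_T22) (h31 : S_T31) (hTR : S_TR) (hEMB : S_EMB) :
    S_ONE := by
  intro a b c ha hb hc hab hac hbc
  have h := O4_all hE h22 h31 hTR hEMB a.natAbs a b c ha hb hc hab hac hbc le_rfl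
  unfold O4_RL at h
  rw [Set.image_insert_eq, Set.image_insert_eq, Set.image_insert_eq, Set.image_singleton] at h
  exact h

end R178.GT
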