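import Mathlib
import Pool.Agent.R178.GT.Defs5

/-! Piece P5A of project GT (helper358). -/
namespace R178.GT
namespace P5Ax

theorem per {A : ℤ → ZMod 5} {N : ℤ} (h : ∀ x, A (x + N) = A x - 1) (x m : ℤ) :
    A (x + N * m) = A x - (m : ZMod 5) := by
  induction m using Int.induction_on with
  | zero => simp
  | succ i ih =>
    have h1 : x + N * ((i : ℤ) + 1) = (x + N * i) + N := by ring
    rw [h1, h, ih]
    push_cast
    ring
  | pred i ih =>
    have h1 := h (x + N * (-(i : ℤ) - 1))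
    have h2 : x + N * (-(i : ℤ) - 1) + N = x + N * (-(i : ℤ)) := by ring
    rw [h2, ih] at h1
    have h3 : A (x + N * (-(i : ℤ) - 1)) = A x - ((-(i : ℤ) : ℤ) : ZMod 5) + 1 := by
      rw [h1]; ring
    rw [h3]
    push_cast
    ring

theorem perv {v : ℤ → Bool} {N : ℤ} (h : ∀ x, v (x + N) = v x) (x m : ℤ) :
    v (x + N * m) = v x := by
  induction m using Int.induction_on with
  | zero => simp
  | succ i ih =>
    have h1 : x + N * ((i : ℤ) + 1) = (x + N * i) + N := by ring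
    rw [h1, h, ih]
  | pred i ih =>
    have h1 := h (x + N * (-(i : ℤ) - 1))
    have h2 : x + N * (-(i : ℤ) - 1) + N = x + N * (-(i : ℤ)) := by ring
    rw [h2, ih] at h1
    exact h1.symm

theorem five (e0 e1 e2 e3 e4 : ZMod 5) (h : [e0, e1, e2, e3, e4].Nodup) :
    e0 = 0 ∨ e1 = 0 ∨ e2 = 0 ∨ e3 = 0 ∨ e4 = 0 := by
  revert e0 e1 e2 e3 e4
  decide

theorem ex5 {Y : Type} (e0 e1 e2 e3 e4 : ZMod 5) (Z0 Z1 Z2 Z3 Z4 : Y)
    (h : [e0, e1, e2, e3, e4].Nodup) :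
    ∃! y : Y, (e0 = 0 ∧ y = Z0) ∨ (e1 = 0 ∧ y = Z1) ∨ (e2 = 0 ∧ y = Z2) ∨ (e3 = 0 ∧ y = Z3) ∨
      (e4 = 0 ∧ y = Z4) := by
  have hex := five _ _ _ _ _ h
  simp only [List.nodup_cons, List.mem_cons, List.not_mem_nil, or_false, not_or,
    List.nodup_nil, and_true, not_false_eq_true] at h
  obtain ⟨⟨n01, n02, n03, n04⟩, ⟨n12, n13, n14⟩, ⟨n23, n24⟩, n34⟩ := h
  rcases hex with h0 | h0 | h0 | h0 | h0
  · refine ⟨Z0, Or.inl ⟨h0, rfl⟩, ?_⟩
    rintro y (⟨h1, h2⟩ | ⟨h1, h2⟩ | ⟨h1, h2⟩ | ⟨h1, h2⟩ | ⟨h1, h2⟩)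
    · exact h2
    · exact absurd (h0.trans h1.symm) n01
    · exact absurd (h0.trans h1.symm) n02
    · exact absurd (h0.trans h1.symm) n03
    · exact absurd (h0.trans h1.symm) n04
  · refine ⟨Z1, Or.inr (Or.inl ⟨h0, rfl⟩), ?_⟩
    rintro y (⟨h1, h2⟩ | ⟨h1, h2⟩ | ⟨h1, h2⟩ | ⟨h1, h2⟩ | ⟨h1, h2⟩)
    · exact absurd (h1.trans h0.symm) n01
    · exact h2
    · exact absurd (h0.trans h1.symm) n12
    · exact absurd (h0.trans h1.symm) n13
    · exact absurd (h0.trans h1.symm) n14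
  · refine ⟨Z2, Or.inr (Or.inr (Or.inl ⟨h0, rfl⟩)), ?_⟩
    rintro y (⟨h1, h2⟩ | ⟨h1, h2⟩ | ⟨h1, h2⟩ | ⟨h1, h2⟩ | ⟨h1, h2⟩)
    · exact absurd (h1.trans h0.symm) n02
    · exact absurd (h1.trans h0.symm) n12
    · exact h2
    · exact absurd (h0.trans h1.symm) n23
    · exact absurd (h0.trans h1.symm) n24
  · refine ⟨Z3, Or.inr (Or.inr (Or.inr (Or.inl ⟨h0, rfl⟩))), ?_⟩
    rintro y (⟨h1, h2⟩ | ⟨h1, h2⟩ | ⟨h1, h2⟩ | ⟨h1, h2⟩ | ⟨h1, h2⟩)
    · exact absurd (h1.trans h0.symm) n03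
    · exact absurd (h1.trans h0.symm) n13
    · exact absurd (h1.trans h0.symm) n23
    · exact h2
    · exact absurd (h0.trans h1.symm) n34
  · refine ⟨Z4, Or.inr (Or.inr (Or.inr (Or.inr ⟨h0, rfl⟩))), ?_⟩
    rintro y (⟨h1, h2⟩ | ⟨h1, h2⟩ | ⟨h1, h2⟩ | ⟨h1, h2⟩ | ⟨h1, h2⟩)
    · exact absurd (h1.trans h0.symm) n04
    · exact absurd (h1.trans h0.symm) n14
    · exact absurd (h1.trans h0.symm) n24
    · exact absurd (h1.trans h0.symm) n34
    · exact h2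

theorem comb {Y : Type} (vz vm vp : Bool) (A0 Am Ap u w : ZMod 5)
    (Y1 Y2 Y3 Y4 Y5 Y6 Y7 Y8 Y9 Y10 : Y)
    (h : [A0, A0 + u, A0 - u, Am - (if vm then w else 0), Ap + (if vp then w else 0)].Nodup) :
    ∃! y : Y,
      ((vz = false ∧ A0 = 0 ∧ y = Y1) ∨
       (vm = false ∧ Am = 0 ∧ y = Y2) ∨
       (vp = false ∧ Ap = 0 ∧ y = Y3) ∨
       (vz = false ∧ A0 + u = 0 ∧ y = Y4) ∨
       (vz = false ∧ A0 - u = 0 ∧ y = Y5) ∨
       (vz = true ∧ A0 = 0 ∧ y = Y6) ∨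
       (vp = true ∧ Ap + w = 0 ∧ y = Y7) ∨
       (vm = true ∧ Am - w = 0 ∧ y = Y8) ∨
       (vz = true ∧ A0 - u = 0 ∧ y = Y9) ∨
       (vz = true ∧ A0 + u = 0 ∧ y = Y10)) := by
  have h1 := ex5 _ _ _ _ _ (if vz then Y6 else Y1) (if vz then Y10 else Y4)
    (if vz then Y9 else Y5) (if vm then Y8 else Y2) (if vp then Y7 else Y3) h
  obtain ⟨y, hy, hyu⟩ := h1
  have hiff : ∀ y : Y, ((A0 = 0 ∧ y = (if vz then Y6 else Y1)) ∨
      (A0 + u = 0 ∧ y = (if vz then Y10 else Y4)) ∨ (A0 - u = 0 ∧ y = (if vz then Y9 else Y5)) ∨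
      (Am - (if vm then w else 0) = 0 ∧ y = (if vm then Y8 else Y2)) ∨
      (Ap + (if vp then w else 0) = 0 ∧ y = (if vp then Y7 else Y3))) ↔
      ((vz = false ∧ A0 = 0 ∧ y = Y1) ∨
       (vm = false ∧ Am = 0 ∧ y = Y2) ∨
       (vp = false ∧ Ap = 0 ∧ y = Y3) ∨
       (vz = false ∧ A0 + u = 0 ∧ y = Y4) ∨
       (vz = false ∧ A0 - u = 0 ∧ y = Y5) ∨
       (vz = true ∧ A0 = 0 ∧ y = Y6) ∨
       (vp = true ∧ Ap + w = 0 ∧ y = Y7) ∨
       (vm = true ∧ Am - w = 0 ∧ y = Y8) ∨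
       (vz = true ∧ A0 - u = 0 ∧ y = Y9) ∨
       (vz = true ∧ A0 + u = 0 ∧ y = Y10)) := by
    intro y
    clear hy hyu h
    generalize (A0 + u = 0) = q1
    generalize (A0 - u = 0) = q2
    cases vz <;> cases vm <;> cases vp <;>
      simp only [if_true, if_false, Bool.false_eq_true, sub_zero, add_zero, true_and, false_and,
        or_false, false_or, reduceCtorEq] <;> tauto
  exact ⟨y, (hiff y).mp hy, fun y' hy' => hyu y' ((hiff y').mpr hy')⟩

end P5Ax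

open P5Ax in
theorem t_P5A (h : S_EX2) : S_P5A := by
  intro k a b' hk ha hb
  obtain ⟨x, a', hxa⟩ : IsCoprime ((5 : ℤ) ^ (k + 1)) a :=
    ((Prime.coprime_iff_not_dvd (by norm_num : Prime (5 : ℤ))).mpr ha).pow_left
  have hu : ((a' * b' : ℤ) : ZMod 5) ≠ 0 := by
    intro h0
    have h1 : ((5 : ℕ) : ℤ) ∣ a' * b' := (ZMod.intCast_zmod_eq_zero_iff_dvd _ 5).mp h0
    rcases (Int.Prime.dvd_mul' (by norm_num : Nat.Prime 5) h1) with h2 | h2
    · have h3 : (5 : ℤ) ∣ 1 := by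
        rw [← hxa]
        exact dvd_add (Dvd.dvd.mul_left (dvd_pow_self 5 (by omega)) x)
          (Dvd.dvd.mul_right (by exact_mod_cast h2) a)
      norm_num at h3
    · exact hb (by exact_mod_cast h2)
  obtain ⟨A, v, w, hA, hv, hnd⟩ := h k ((a' * b' : ℤ) : ZMod 5) hk hu
  obtain ⟨N, hN⟩ : ∃ N : ℤ, N = 5 ^ k := ⟨_, rfl⟩
  have hN5 : (N : ZMod 5) = 0 := by
    rw [hN]
    push_cast
    have h5 : (5 : ZMod 5) = 0 := by decide
    rw [h5, zero_pow (by omega)]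
  rw [← hN] at hA hv
  have hxa' : a' * a = 1 - N * (5 * x) := by
    have : (5 : ℤ) ^ (k + 1) = 5 * N := by rw [hN]; ring
    rw [this] at hxa
    linarith
  obtain ⟨W, hW⟩ : ∃ W : ℤ, (W : ZMod 5) = w := ⟨(w.val : ℤ), by simp⟩
  have h5 : (5 : ZMod 5) = 0 := by decide
  obtain ⟨u, hu'⟩ : ∃ u : ZMod 5, u = ((a' * b' : ℤ) : ZMod 5) := ⟨_, rfl⟩
  rw [← hu'] at hnd
  have key : ∀ (r e : ℤ) (c : ZMod 5), (e : ZMod 5) = c → A (r + N * e) = A r - c ∧
      v (r + N * e) = v r := by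
    intro r e c hc
    exact ⟨by rw [per hA, hc], perv hv r e⟩
  rw [← hN]
  refine ⟨{q | (q.1 = 0 ∧ A (a' * (q.2.1 + (-1 + N * W) * q.2.2)) = 0 ∧
      v (a' * (q.2.1 + (-1 + N * W) * q.2.2)) = false) ∨
      (q.1 = 1 ∧ A (a' * (q.2.1 + (-1 + N * W) * q.2.2)) = 0 ∧
      v (a' * (q.2.1 + (-1 + N * W) * q.2.2)) = true)}, ?_⟩
  rintro ⟨p1, p2⟩
  obtain ⟨z, hz⟩ : ∃ z : ℤ, z = a' * (p1 + (-1 + N * W) * p2) := ⟨_, rfl⟩
  -- the ten values
  have k00 : a' * ((p1 - 0) + (-1 + N * W) * p2) = z := by rw [hz]; ring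
  have k0a : A (a' * ((p1 - a) + (-1 + N * W) * p2)) = A (z - 1) ∧
      v (a' * ((p1 - a) + (-1 + N * W) * p2)) = v (z - 1) := by
    have h1 := key (z - 1) (5 * x) 0 (by push_cast; rw [h5]; ring)
    have h2 : a' * ((p1 - a) + (-1 + N * W) * p2) = z - 1 + N * (5 * x) := by
      rw [hz]; linear_combination (-1 : ℤ) * hxa'
    rw [h2, h1.1, h1.2]; simp
  have k0n : A (a' * ((p1 - -a) + (-1 + N * W) * p2)) = A (z + 1) ∧
      v (a' * ((p1 - -a) + (-1 + N * W) * p2)) = v (z + 1) := by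
    have h1 := key (z + 1) (-(5 * x)) 0 (by push_cast; rw [h5]; ring)
    have h2 : a' * ((p1 - -a) + (-1 + N * W) * p2) = z + 1 + N * (-(5 * x)) := by
      rw [hz]; linear_combination (1 : ℤ) * hxa'
    rw [h2, h1.1, h1.2]; simp
  have k0b : A (a' * ((p1 - N * b') + (-1 + N * W) * p2)) = A z + u ∧
      v (a' * ((p1 - N * b') + (-1 + N * W) * p2)) = v z := by
    have h1 := key z (-(a' * b')) (-u) (by rw [hu']; push_cast; ring)
    have h2 : a' * ((p1 - N * b') + (-1 + N * W) * p2) = z + N * (-(a' * b')) := by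
      rw [hz]; ring
    rw [h2, h1.1, h1.2]; simp
  have k0m : A (a' * ((p1 - -(N * b')) + (-1 + N * W) * p2)) = A z - u ∧
      v (a' * ((p1 - -(N * b')) + (-1 + N * W) * p2)) = v z := by
    have h1 := key z (a' * b') u (by rw [hu'])
    have h2 : a' * ((p1 - -(N * b')) + (-1 + N * W) * p2) = z + N * (a' * b') := by
      rw [hz]; ring
    rw [h2, h1.1, h1.2]; simp
  have k1a : A (a' * (p1 + (-1 + N * W) * (p2 - a))) = A (z + 1) + w ∧
      v (a' * (p1 + (-1 + N * W) * (p2 - a))) = v (z + 1) := by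
    have h1 := key (z + 1) (-W - 5 * x + 5 * x * N * W) (-w)
      (by push_cast; rw [h5, hW]; ring)
    have h2 : a' * (p1 + (-1 + N * W) * (p2 - a)) = z + 1 + N * (-W - 5 * x + 5 * x * N * W) := by
      rw [hz]; linear_combination (-(-1 + N * W)) * hxa'
    rw [h2, h1.1, h1.2]; simp
  have k1n : A (a' * (p1 + (-1 + N * W) * (p2 - -a))) = A (z - 1) - w ∧
      v (a' * (p1 + (-1 + N * W) * (p2 - -a))) = v (z - 1) := by
    have h1 := key (z - 1) (W + 5 * x - 5 * x * N * W) w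
      (by push_cast; rw [h5, hW]; ring)
    have h2 : a' * (p1 + (-1 + N * W) * (p2 - -a)) = z - 1 + N * (W + 5 * x - 5 * x * N * W) := by
      rw [hz]; linear_combination (-1 + N * W) * hxa'
    rw [h2, h1.1, h1.2]; simp
  have k1b : A (a' * (p1 + (-1 + N * W) * (p2 - N * b'))) = A z - u ∧
      v (a' * (p1 + (-1 + N * W) * (p2 - N * b'))) = v z := by
    have h1 := key z (a' * b' - N * (W * a' * b')) u
      (by rw [hu']; push_cast; rw [hN5]; ring)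
    have h2 : a' * (p1 + (-1 + N * W) * (p2 - N * b')) =
        z + N * (a' * b' - N * (W * a' * b')) := by
      rw [hz]; ring
    rw [h2, h1.1, h1.2]; simp
  have k1m : A (a' * (p1 + (-1 + N * W) * (p2 - -(N * b')))) = A z + u ∧
      v (a' * (p1 + (-1 + N * W) * (p2 - -(N * b')))) = v z := by
    have h1 := key z (-(a' * b' - N * (W * a' * b'))) (-u)
      (by rw [hu']; push_cast; rw [hN5]; ring)
    have h2 : a' * (p1 + (-1 + N * W) * (p2 - -(N * b'))) =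
        z + N * (-(a' * b' - N * (W * a' * b'))) := by
      rw [hz]; ring
    rw [h2, h1.1, h1.2]; simp
  have k10 : a' * (p1 + (-1 + N * W) * (p2 - 0)) = z := by rw [hz]; ring
  have hz' := hnd z
  -- the description of all copies which cover the point
  have desc : ∀ y : (Fin 4 × (ℤ × ℤ)) × (ℤ × ℤ),
      (y.1 ∈ {q : Fin 4 × (ℤ × ℤ) | (q.1 = 0 ∧ A (a' * (q.2.1 + (-1 + N * W) * q.2.2)) = 0 ∧
      v (a' * (q.2.1 + (-1 + N * W) * q.2.2)) = false) ∨
      (q.1 = 1 ∧ A (a' * (q.2.1 + (-1 + N * W) * q.2.2)) = 0 ∧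
      v (a' * (q.2.1 + (-1 + N * W) * q.2.2)) = true)} ∧ y.2 ∈ L5 a (N * b') ∧
        rot y.1.1 y.2 + y.1.2 = (p1, p2)) ↔
      ((v z = false ∧ A z = 0 ∧ y = ((0, (p1 - 0, p2)), (0, 0))) ∨
       (v (z - 1) = false ∧ A (z - 1) = 0 ∧ y = ((0, (p1 - a, p2)), (a, 0))) ∨
       (v (z + 1) = false ∧ A (z + 1) = 0 ∧ y = ((0, (p1 - -a, p2)), (-a, 0))) ∨
       (v z = false ∧ A z + u = 0 ∧ y = ((0, (p1 - N * b', p2)), (N * b', 0))) ∨
       (v z = false ∧ A z - u = 0 ∧ y = ((0, (p1 - -(N * b'), p2)), (-(N * b'), 0))) ∨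
       (v z = true ∧ A z = 0 ∧ y = ((1, (p1, p2 - 0)), (0, 0))) ∨
       (v (z + 1) = true ∧ A (z + 1) + w = 0 ∧ y = ((1, (p1, p2 - a)), (a, 0))) ∨
       (v (z - 1) = true ∧ A (z - 1) - w = 0 ∧ y = ((1, (p1, p2 - -a)), (-a, 0))) ∨
       (v z = true ∧ A z - u = 0 ∧ y = ((1, (p1, p2 - N * b')), (N * b', 0))) ∨
       (v z = true ∧ A z + u = 0 ∧ y = ((1, (p1, p2 - -(N * b'))), (-(N * b'), 0)))) := by
    rintro ⟨⟨q, t1, t2⟩, s1, s2⟩
    constructor
    · rintro ⟨h1, h2, h3⟩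
      have h2' : (s1, s2) = ((0 : ℤ), (0 : ℤ)) ∨ (s1, s2) = (a, 0) ∨ (s1, s2) = (-a, 0) ∨
        (s1, s2) = (N * b', 0) ∨ (s1, s2) = (-(N * b'), 0) := h2
      have hs2 : s2 = 0 := by
        rcases h2' with h | h | h | h | h <;> exact (Prod.mk.inj h).2
      subst hs2
      rcases h1 with ⟨hq, hA0, hv0⟩ | ⟨hq, hA0, hv0⟩
      · change q = 0 at hq
        subst hq
        change (s1, (0 : ℤ)) + (t1, t2) = (p1, p2) at h3
        have e1 : s1 + t1 = p1 := (Prod.mk.inj h3).1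
        have e2 : 0 + t2 = p2 := (Prod.mk.inj h3).2
        have ht1 : t1 = p1 - s1 := by linarith
        have ht2 : t2 = p2 := by linarith
        change A (a' * (t1 + (-1 + N * W) * t2)) = 0 at hA0
        change v (a' * (t1 + (-1 + N * W) * t2)) = false at hv0
        rw [ht1, ht2] at hA0 hv0
        rcases h2' with h | h | h | h | h
        · have hs : s1 = 0 := (Prod.mk.inj h).1
          rw [hs, k00] at hA0 hv0
          left
          exact ⟨hv0, hA0, by rw [ht1, ht2, hs]⟩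
        · have hs : s1 = a := (Prod.mk.inj h).1
          rw [hs] at hA0 hv0
          rw [k0a.1] at hA0
          rw [k0a.2] at hv0
          right; left
          exact ⟨hv0, hA0, by rw [ht1, ht2, hs]⟩
        · have hs : s1 = -a := (Prod.mk.inj h).1
          rw [hs] at hA0 hv0
          rw [k0n.1] at hA0
          rw [k0n.2] at hv0
          right; right; left
          exact ⟨hv0, hA0, by rw [ht1, ht2, hs]⟩
        · have hs : s1 = N * b' := (Prod.mk.inj h).1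
          rw [hs] at hA0 hv0
          rw [k0b.1] at hA0
          rw [k0b.2] at hv0
          right; right; right; left
          exact ⟨hv0, hA0, by rw [ht1, ht2, hs]⟩
        · have hs : s1 = -(N * b') := (Prod.mk.inj h).1
          rw [hs] at hA0 hv0
          rw [k0m.1] at hA0
          rw [k0m.2] at hv0
          right; right; right; right; left
          exact ⟨hv0, hA0, by rw [ht1, ht2, hs]⟩
      · change q = 1 at hq
        subst hq
        change (-(0 : ℤ), s1) + (t1, t2) = (p1, p2) at h3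
        have e1 : -(0 : ℤ) + t1 = p1 := (Prod.mk.inj h3).1
        have e2 : s1 + t2 = p2 := (Prod.mk.inj h3).2
        have ht1 : t1 = p1 := by linarith
        have ht2 : t2 = p2 - s1 := by linarith
        change A (a' * (t1 + (-1 + N * W) * t2)) = 0 at hA0
        change v (a' * (t1 + (-1 + N * W) * t2)) = true at hv0
        rw [ht1, ht2] at hA0 hv0
        right; right; right; right; right
        rcases h2' with h | h | h | h | h
        · have hs : s1 = 0 := (Prod.mk.inj h).1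
          rw [hs, k10] at hA0 hv0
          left
          exact ⟨hv0, hA0, by rw [ht1, ht2, hs]⟩
        · have hs : s1 = a := (Prod.mk.inj h).1
          rw [hs] at hA0 hv0
          rw [k1a.1] at hA0
          rw [k1a.2] at hv0
          right; left
          exact ⟨hv0, hA0, by rw [ht1, ht2, hs]⟩
        · have hs : s1 = -a := (Prod.mk.inj h).1
          rw [hs] at hA0 hv0
          rw [k1n.1] at hA0
          rw [k1n.2] at hv0
          right; right; left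
          exact ⟨hv0, hA0, by rw [ht1, ht2, hs]⟩
        · have hs : s1 = N * b' := (Prod.mk.inj h).1
          rw [hs] at hA0 hv0
          rw [k1b.1] at hA0
          rw [k1b.2] at hv0
          right; right; right; left
          exact ⟨hv0, hA0, by rw [ht1, ht2, hs]⟩
        · have hs : s1 = -(N * b') := (Prod.mk.inj h).1
          rw [hs] at hA0 hv0
          rw [k1m.1] at hA0
          rw [k1m.2] at hv0
          right; right; right; right
          exact ⟨hv0, hA0, by rw [ht1, ht2, hs]⟩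
    · rintro (⟨c1, c2, c3⟩ | ⟨c1, c2, c3⟩ | ⟨c1, c2, c3⟩ | ⟨c1, c2, c3⟩ | ⟨c1, c2, c3⟩ |
        ⟨c1, c2, c3⟩ | ⟨c1, c2, c3⟩ | ⟨c1, c2, c3⟩ | ⟨c1, c2, c3⟩ | ⟨c1, c2, c3⟩) <;> rw [c3]
      · exact ⟨Or.inl ⟨rfl, (by rw [k00]; exact c2), (by rw [k00]; exact c1)⟩,
          Or.inl rfl, by simp [rot]⟩
      · exact ⟨Or.inl ⟨rfl, k0a.1.trans c2, k0a.2.trans c1⟩,
          Or.inr (Or.inl rfl), by simp [rot]⟩
      · exact ⟨Or.inl ⟨rfl, k0n.1.trans c2, k0n.2.trans c1⟩,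
          Or.inr (Or.inr (Or.inl rfl)), by simp [rot]⟩
      · exact ⟨Or.inl ⟨rfl, k0b.1.trans c2, k0b.2.trans c1⟩,
          Or.inr (Or.inr (Or.inr (Or.inl rfl))), by simp [rot]⟩
      · exact ⟨Or.inl ⟨rfl, k0m.1.trans c2, k0m.2.trans c1⟩,
          Or.inr (Or.inr (Or.inr (Or.inr rfl))), by simp [rot]⟩
      · exact ⟨Or.inr ⟨rfl, (by rw [k10]; exact c2), (by rw [k10]; exact c1)⟩,
          Or.inl rfl, by simp [rot]⟩
      · exact ⟨Or.inr ⟨rfl, k1a.1.trans c2, k1a.2.trans c1⟩,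
          Or.inr (Or.inl rfl), by simp [rot]⟩
      · exact ⟨Or.inr ⟨rfl, k1n.1.trans c2, k1n.2.trans c1⟩,
          Or.inr (Or.inr (Or.inl rfl)), by simp [rot]⟩
      · exact ⟨Or.inr ⟨rfl, k1b.1.trans c2, k1b.2.trans c1⟩,
          Or.inr (Or.inr (Or.inr (Or.inl rfl))), by simp [rot]⟩
      · exact ⟨Or.inr ⟨rfl, k1m.1.trans c2, k1m.2.trans c1⟩,
          Or.inr (Or.inr (Or.inr (Or.inr rfl))), by simp [rot]⟩
  unfold Lw Up at hz'
  have fin : ∃! y : (Fin 4 × (ℤ × ℤ)) × (ℤ × ℤ),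
      ((v z = false ∧ A z = 0 ∧ y = ((0, (p1 - 0, p2)), (0, 0))) ∨
       (v (z - 1) = false ∧ A (z - 1) = 0 ∧ y = ((0, (p1 - a, p2)), (a, 0))) ∨
       (v (z + 1) = false ∧ A (z + 1) = 0 ∧ y = ((0, (p1 - -a, p2)), (-a, 0))) ∨
       (v z = false ∧ A z + u = 0 ∧ y = ((0, (p1 - N * b', p2)), (N * b', 0))) ∨
       (v z = false ∧ A z - u = 0 ∧ y = ((0, (p1 - -(N * b'), p2)), (-(N * b'), 0))) ∨
       (v z = true ∧ A z = 0 ∧ y = ((1, (p1, p2 - 0)), (0, 0))) ∨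
       (v (z + 1) = true ∧ A (z + 1) + w = 0 ∧ y = ((1, (p1, p2 - a)), (a, 0))) ∨
       (v (z - 1) = true ∧ A (z - 1) - w = 0 ∧ y = ((1, (p1, p2 - -a)), (-a, 0))) ∨
       (v z = true ∧ A z - u = 0 ∧ y = ((1, (p1, p2 - N * b')), (N * b', 0))) ∨
       (v z = true ∧ A z + u = 0 ∧ y = ((1, (p1, p2 - -(N * b'))), (-(N * b'), 0)))) :=
    comb _ _ _ _ _ _ _ _ _ _ _ _ _ _ _ _ _ _ hz'
  obtain ⟨y, hy, hyu⟩ := fin
  exact ⟨y, (desc y).mpr hy, fun y' hy' => hyu y' ((desc y').mp hy')⟩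

end R178.GT
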