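import Mathlib
import Pool.Agent.R178.GT.Defs
import Pool.Agent.R178.GT.Defs5

/-! Tilings by `{0, ±a, ±(a + 5^k c)}` (MP_dae7ec_co). -/
namespace R178.GT

theorem p5b_shift {N : ℤ} {A : ℤ → ZMod 5} (hA : ∀ x, A (x + N) = A x - 1) (m : ℤ) :
    ∀ x : ℤ, A (x + N * m) = A x - (m : ZMod 5) := by
  induction m using Int.induction_on with
  | zero => intro x; simp
  | succ i ih =>
    intro x
    have h := hA (x + N * i)
    rw [show x + N * ((i:ℤ) + 1) = x + N * i + N by ring, h, ih]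
    push_cast; ring
  | pred i ih =>
    intro x
    have h := hA (x + N * (-(i:ℤ) - 1))
    rw [show x + N * (-(i:ℤ) - 1) + N = x + N * (-(i:ℤ)) by ring, ih] at h
    push_cast at h ⊢
    linear_combination -h

theorem p5b_shiftv {N : ℤ} {v : ℤ → Bool} (hv : ∀ x, v (x + N) = v x) (m : ℤ) :
    ∀ x : ℤ, v (x + N * m) = v x := by
  induction m using Int.induction_on with
  | zero => intro x; simp
  | succ i ih =>
    intro x
    rw [show x + N * ((i:ℤ) + 1) = x + N * i + N by ring, hv, ih]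
  | pred i ih =>
    intro x
    rw [← hv, show x + N * (-(i:ℤ) - 1) + N = x + N * (-(i:ℤ)) by ring, ih]

theorem t_P5B (h : S_EX3) : S_P5B := by
  intro k a c hk ha hc
  have hp5 : Prime (5:ℤ) := by
    have : Nat.Prime 5 := by norm_num
    exact Nat.prime_iff_prime_int.mp this
  have hcop : IsCoprime a ((5:ℤ)^(k+1)) := by
    apply IsCoprime.pow_right
    exact ((Prime.coprime_iff_not_dvd hp5).mpr ha).symm
  obtain ⟨a', r, har⟩ := hcop
  have h50 : (5 : ZMod 5) = 0 := by decide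
  obtain ⟨j, hj⟩ : ∃ j, k = j + 1 := ⟨k-1, by omega⟩
  have hN : (((5:ℤ)^k : ℤ) : ZMod 5) = 0 := by
    rw [hj]
    push_cast
    rw [pow_succ, h50, mul_zero]
  have hu : ((a' * c : ℤ) : ZMod 5) ≠ 0 := by
    intro h0
    rw [ZMod.intCast_zmod_eq_zero_iff_dvd] at h0
    rcases hp5.dvd_or_dvd h0 with h1 | h1
    · have h2 : (5:ℤ) ∣ 1 := by
        rw [← har, pow_succ]
        exact dvd_add (Dvd.dvd.mul_right h1 _) ⟨r * 5 ^ k, by ring⟩
      omega
    · exact hc h1
  obtain ⟨A, v, w, hA, hv, hnd⟩ := h k ((a' * c : ℤ) : ZMod 5) hk hu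
  have har' : a' * a = 1 + (5:ℤ)^k * (-5 * r) := by
    rw [pow_succ] at har
    linear_combination har
  clear har hj
  generalize (5:ℤ)^k = N at *
  obtain ⟨W, hWw⟩ : ∃ W : ℤ, (W : ZMod 5) = w := ⟨(w.val : ℤ), by simp⟩
  have hA' := fun x m => p5b_shift hA m x
  have hv' := fun x m => p5b_shiftv hv m x
  let y : ℤ × ℤ → ℤ := fun t => a' * (t.1 + (-1 + N * W) * t.2)
  refine ⟨{q | (q.1 = 0 ∧ A (y q.2) = 0 ∧ v (y q.2) = false) ∨
    (q.1 = 1 ∧ A (y q.2) = 0 ∧ v (y q.2) = true)}, ?_⟩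
  intro p
  have hstep : ∀ (t : ℤ × ℤ) (z0 m : ℤ), y t = z0 + N * m →
      A (y t) = A z0 - (m : ZMod 5) ∧ v (y t) = v z0 := by
    intro t z0 m ht
    rw [ht]
    exact ⟨hA' _ _, hv' _ _⟩
  obtain ⟨z, hz⟩ : ∃ z, z = y p := ⟨_, rfl⟩
  have g00 : A (y (p - (0, 0))) = A z ∧ v (y (p - (0,0))) = v z := by
    have h0 : p - ((0:ℤ), (0:ℤ)) = p := by ext <;> simp
    rw [hz, h0]; exact ⟨rfl, rfl⟩
  have g10 : A (y (p - (a, 0))) = A (z - 1) ∧ v (y (p - (a,0))) = v (z - 1) := by
    have := hstep (p - (a, 0)) (z - 1) (5 * r) (by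
      rw [hz]; simp only [y, Prod.fst_sub, Prod.snd_sub]; linear_combination (-1) * har')
    push_cast at this
    rw [h50] at this
    simpa using this
  have g20 : A (y (p - (-a, 0))) = A (z + 1) ∧ v (y (p - (-a,0))) = v (z + 1) := by
    have := hstep (p - (-a, 0)) (z + 1) (-5 * r) (by
      rw [hz]; simp only [y, Prod.fst_sub, Prod.snd_sub]; linear_combination har')
    push_cast at this
    rw [h50] at this
    simpa using this
  have g30 : A (y (p - (a + N * c, 0))) = A (z - 1) + ((a' * c : ℤ) : ZMod 5) ∧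
      v (y (p - (a + N * c,0))) = v (z - 1) := by
    have := hstep (p - (a + N * c, 0)) (z - 1) (5 * r - a' * c) (by
      rw [hz]; simp only [y, Prod.fst_sub, Prod.snd_sub]; linear_combination (-1) * har')
    push_cast at this ⊢
    rw [h50] at this
    refine ⟨?_, this.2⟩
    rw [this.1]; ring
  have g40 : A (y (p - (-(a + N * c), 0))) = A (z + 1) - ((a' * c : ℤ) : ZMod 5) ∧
      v (y (p - (-(a + N * c),0))) = v (z + 1) := by
    have := hstep (p - (-(a + N * c), 0)) (z + 1) (-5 * r + a' * c) (by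
      rw [hz]; simp only [y, Prod.fst_sub, Prod.snd_sub]; linear_combination har')
    push_cast at this ⊢
    rw [h50] at this
    refine ⟨?_, this.2⟩
    rw [this.1]; ring
  have g11 : A (y (p - (0, a))) = A (z + 1) + w ∧ v (y (p - (0, a))) = v (z + 1) := by
    have := hstep (p - (0, a)) (z + 1) (-W - 5 * r + 5 * r * N * W) (by
      rw [hz]; simp only [y, Prod.fst_sub, Prod.snd_sub]
      linear_combination (1 - N * W) * har')
    push_cast at this ⊢
    rw [h50, hN, hWw] at this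
    refine ⟨?_, this.2⟩
    rw [this.1]; ring
  have g21 : A (y (p - (0, -a))) = A (z - 1) - w ∧ v (y (p - (0, -a))) = v (z - 1) := by
    have := hstep (p - (0, -a)) (z - 1) (W + 5 * r - 5 * r * N * W) (by
      rw [hz]; simp only [y, Prod.fst_sub, Prod.snd_sub]
      linear_combination (-1 + N * W) * har')
    push_cast at this ⊢
    rw [h50, hN, hWw] at this
    refine ⟨?_, this.2⟩
    rw [this.1]; ring
  have g31 : A (y (p - (0, a + N * c))) = A (z + 1) + w - ((a' * c : ℤ) : ZMod 5) ∧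
      v (y (p - (0, a + N * c))) = v (z + 1) := by
    have := hstep (p - (0, a + N * c)) (z + 1)
      (-W - 5 * r + 5 * r * N * W + a' * c - N * W * a' * c) (by
      rw [hz]; simp only [y, Prod.fst_sub, Prod.snd_sub]
      linear_combination (1 - N * W) * har')
    push_cast at this ⊢
    rw [h50, hN, hWw] at this
    refine ⟨?_, this.2⟩
    rw [this.1]; ring
  have g41 : A (y (p - (0, -(a + N * c)))) = A (z - 1) - w + ((a' * c : ℤ) : ZMod 5) ∧
      v (y (p - (0, -(a + N * c)))) = v (z - 1) := by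
    have := hstep (p - (0, -(a + N * c))) (z - 1)
      (W + 5 * r - 5 * r * N * W - a' * c + N * W * a' * c) (by
      rw [hz]; simp only [y, Prod.fst_sub, Prod.snd_sub]
      linear_combination (-1 + N * W) * har')
    push_cast at this ⊢
    rw [h50, hN, hWw] at this
    refine ⟨?_, this.2⟩
    rw [this.1]; ring
  clear hz hstep hA' hv' har' hN hWw
  generalize ((a' * c : ℤ) : ZMod 5) = u at *
  generalize a + N * c = b at *
  have hnd0 := hnd z
  unfold Lw Up at hnd0
  clear hnd hA hv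
  generalize A z = A0 at *
  generalize A (z - 1) = A1 at *
  generalize A (z + 1) = A2 at *
  generalize v z = v0 at *
  generalize v (z - 1) = v1 at *
  generalize v (z + 1) = v2 at *
  clear_value y
  obtain ⟨val, hvald⟩ : ∃ val : Fin 5 → ZMod 5, val = ![A0, A1 - (if v1 then w else 0),
    A1 - (if v1 then w else 0) + u, A2 + (if v2 then w else 0),
    A2 + (if v2 then w else 0) - u] := ⟨_, rfl⟩
  obtain ⟨F, hF⟩ : ∃ F : Fin 5 → (Fin 4 × (ℤ × ℤ)) × (ℤ × ℤ), F =
    ![if v0 then ((1, p - (0, 0)), (0, 0)) else ((0, p - (0, 0)), (0, 0)),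
      if v1 then ((1, p - (0, -a)), (-a, 0)) else ((0, p - (a, 0)), (a, 0)),
      if v1 then ((1, p - (0, -b)), (-b, 0)) else ((0, p - (b, 0)), (b, 0)),
      if v2 then ((1, p - (0, a)), (a, 0)) else ((0, p - (-a, 0)), (-a, 0)),
      if v2 then ((1, p - (0, b)), (b, 0)) else ((0, p - (-b, 0)), (-b, 0))] := ⟨_, rfl⟩
  have hinj : Function.Injective val := by
    rw [← List.nodup_ofFn, hvald]
    exact hnd0
  have hsurj : Function.Surjective val :=
    ((Fintype.bijective_iff_injective_and_card val).mpr ⟨hinj, by simp [ZMod.card]⟩).2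
  obtain ⟨i, hi⟩ := hsurj 0
  have key2 : ∀ i, val i = 0 → ((F i).1 ∈ {q : Fin 4 × (ℤ × ℤ) |
      (q.1 = 0 ∧ A (y q.2) = 0 ∧ v (y q.2) = false) ∨
      (q.1 = 1 ∧ A (y q.2) = 0 ∧ v (y q.2) = true)} ∧ (F i).2 ∈ L5 a b ∧
      rot (F i).1.1 (F i).2 + (F i).1.2 = p) := by
    intro i hi
    subst hvald hF
    fin_cases i
    · cases v0
      · exact ⟨Or.inl ⟨rfl, by simpa [g00.1] using hi, by simp [g00.2]⟩, by simp [L5],
          by ext <;> simp [rot]⟩
      · exact ⟨Or.inr ⟨rfl, by simpa [g00.1] using hi, by simp [g00.2]⟩, by simp [L5],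
          by ext <;> simp [rot]⟩
    · cases v1
      · exact ⟨Or.inl ⟨rfl, by simpa [g10.1] using hi, by simp [g10.2]⟩, by simp [L5],
          by ext <;> simp [rot]⟩
      · exact ⟨Or.inr ⟨rfl, by simpa [g21.1] using hi, by simp [g21.2]⟩, by simp [L5],
          by ext <;> simp [rot]⟩
    · cases v1
      · exact ⟨Or.inl ⟨rfl, by simpa [g30.1] using hi, by simp [g30.2]⟩, by simp [L5],
          by ext <;> simp [rot]⟩
      · exact ⟨Or.inr ⟨rfl, by simpa [g41.1] using hi, by simp [g41.2]⟩, by simp [L5],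
          by ext <;> simp [rot]⟩
    · cases v2
      · exact ⟨Or.inl ⟨rfl, by simpa [g20.1] using hi, by simp [g20.2]⟩, by simp [L5],
          by ext <;> simp [rot]⟩
      · exact ⟨Or.inr ⟨rfl, by simpa [g11.1] using hi, by simp [g11.2]⟩, by simp [L5],
          by ext <;> simp [rot]⟩
    · cases v2
      · exact ⟨Or.inl ⟨rfl, by simpa [g40.1] using hi, by simp [g40.2]⟩, by simp [L5],
          by ext <;> simp [rot]⟩
      · exact ⟨Or.inr ⟨rfl, by simpa [g31.1] using hi, by simp [g31.2]⟩, by simp [L5],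
          by ext <;> simp [rot]⟩
  have key1 : ∀ x : (Fin 4 × (ℤ × ℤ)) × (ℤ × ℤ), (x.1 ∈ {q : Fin 4 × (ℤ × ℤ) |
      (q.1 = 0 ∧ A (y q.2) = 0 ∧ v (y q.2) = false) ∨
      (q.1 = 1 ∧ A (y q.2) = 0 ∧ v (y q.2) = true)} ∧ x.2 ∈ L5 a b ∧
      rot x.1.1 x.2 + x.1.2 = p) → ∃ i, val i = 0 ∧ x = F i := by
    rintro ⟨⟨κ, t⟩, s⟩ ⟨hq, hs, hrot⟩
    subst hvald hF
    simp only [L5, Set.mem_insert_iff, Set.mem_singleton_iff] at hs
    simp only [Set.mem_ofPred_eq] at hq
    rcases hq with ⟨hκ, hA0, hv0⟩ | ⟨hκ, hA0, hv0⟩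
    · subst hκ
      have ht : t = p - s := by rw [← hrot]; simp [rot]
      subst ht
      rcases hs with rfl | rfl | rfl | rfl | rfl
      · rw [g00.1] at hA0; rw [g00.2] at hv0; exact ⟨0, by simp [hA0], by simp [hv0]⟩
      · rw [g10.1] at hA0; rw [g10.2] at hv0; exact ⟨1, by simp [hA0, hv0], by simp [hv0]⟩
      · rw [g20.1] at hA0; rw [g20.2] at hv0; exact ⟨3, by simp [hA0, hv0], by simp [hv0]⟩
      · rw [g30.1] at hA0; rw [g30.2] at hv0; exact ⟨2, by simp [hA0, hv0], by simp [hv0]⟩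
      · rw [g40.1] at hA0; rw [g40.2] at hv0; exact ⟨4, by simp [hA0, hv0], by simp [hv0]⟩
    · subst hκ
      have ht : t = p - (0, s.1) := by
        rw [← hrot]
        have hs2 : s.2 = 0 := by rcases hs with rfl | rfl | rfl | rfl | rfl <;> rfl
        ext <;> simp [rot, hs2]
      subst ht
      rcases hs with rfl | rfl | rfl | rfl | rfl
      · rw [g00.1] at hA0; rw [g00.2] at hv0; exact ⟨0, by simp [hA0], by simp [hv0]⟩
      · rw [g11.1] at hA0; rw [g11.2] at hv0; exact ⟨3, by simp [hA0, hv0], by simp [hv0]⟩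
      · rw [g21.1] at hA0; rw [g21.2] at hv0; exact ⟨1, by simp [hA0, hv0], by simp [hv0]⟩
      · rw [g31.1] at hA0; rw [g31.2] at hv0; exact ⟨4, by simp [hA0, hv0], by simp [hv0]⟩
      · rw [g41.1] at hA0; rw [g41.2] at hv0; exact ⟨2, by simp [hA0, hv0], by simp [hv0]⟩
  refine ⟨F i, key2 i hi, ?_⟩
  intro x hx
  obtain ⟨j, hj, rfl⟩ := key1 x hx
  rw [hinj (hj.trans hi.symm)]

end R178.GT
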