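import Mathlib
import Pool.Agent.R178.GT.Defs5

/-! Piece P5C: the translation tiling modulo 5. -/
namespace R178.GT

theorem t_P5C : S_P5C := by
  intro a b ha hb hab hab'
  refine ⟨{q | q.1 = 0 ∧ (5 : ℤ) ∣ q.2.1}, ?_⟩
  rintro ⟨x, y⟩
  have ex : ∃ s : ℤ, (s = 0 ∨ s = a ∨ s = -a ∨ s = b ∨ s = -b) ∧ (5 : ℤ) ∣ (x - s) := by
    by_cases h0 : (5 : ℤ) ∣ (x - 0)
    · exact ⟨0, Or.inl rfl, h0⟩
    by_cases h1 : (5 : ℤ) ∣ (x - a)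
    · exact ⟨a, Or.inr (Or.inl rfl), h1⟩
    by_cases h2 : (5 : ℤ) ∣ (x - -a)
    · exact ⟨-a, Or.inr (Or.inr (Or.inl rfl)), h2⟩
    by_cases h3 : (5 : ℤ) ∣ (x - b)
    · exact ⟨b, Or.inr (Or.inr (Or.inr (Or.inl rfl))), h3⟩
    refine ⟨-b, Or.inr (Or.inr (Or.inr (Or.inr rfl))), ?_⟩
    have ha5 : a % 5 = 1 ∨ a % 5 = 2 ∨ a % 5 = 3 ∨ a % 5 = 4 := by omega
    have hb5 : b % 5 = 1 ∨ b % 5 = 2 ∨ b % 5 = 3 ∨ b % 5 = 4 := by omega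
    have hx5 : x % 5 = 1 ∨ x % 5 = 2 ∨ x % 5 = 3 ∨ x % 5 = 4 := by omega
    rcases ha5 with h5 | h5 | h5 | h5 <;> rcases hb5 with h6 | h6 | h6 | h6 <;>
      rcases hx5 with h7 | h7 | h7 | h7 <;> omega
  obtain ⟨s, hs, hsd⟩ := ex
  have hmem : ∀ σ : ℤ × ℤ, σ ∈ L5 a b ↔
      (σ.1 = 0 ∨ σ.1 = a ∨ σ.1 = -a ∨ σ.1 = b ∨ σ.1 = -b) ∧ σ.2 = 0 := by
    rintro ⟨s1, s2⟩
    simp only [L5, Set.mem_insert_iff, Set.mem_singleton_iff, Prod.mk.injEq]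
    tauto
  refine ⟨((0, (x - s, y)), (s, 0)), ⟨⟨rfl, hsd⟩, (hmem _).mpr ⟨hs, rfl⟩, ?_⟩, ?_⟩
  · change ((s, 0) : ℤ × ℤ) + (x - s, y) = (x, y)
    rw [Prod.mk_add_mk, Prod.mk.injEq]
    constructor <;> ring
  · rintro ⟨⟨k, ⟨t1, t2⟩⟩, ⟨s1, s2⟩⟩ ⟨⟨hk, ht⟩, hσ, he⟩
    change k = 0 at hk
    subst hk
    change (5 : ℤ) ∣ t1 at ht
    change ((s1, s2) : ℤ × ℤ) + (t1, t2) = (x, y) at he
    rw [Prod.mk_add_mk, Prod.mk.injEq] at he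
    obtain ⟨he1, he2⟩ := he
    obtain ⟨hs1, hs2⟩ := (hmem _).mp hσ
    change s1 = 0 ∨ s1 = a ∨ s1 = -a ∨ s1 = b ∨ s1 = -b at hs1
    change s2 = 0 at hs2
    have hss : s1 = s := by
      rcases hs with h | h | h | h | h <;> rcases hs1 with h' | h' | h' | h' | h' <;> omega
    have ht1 : t1 = x - s := by omega
    have ht2 : t2 = y := by omega
    rw [hss, ht1, ht2, hs2]

end R178.GT
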