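import Mathlib
import Pool.Agent.R178.GT.Defs

/-! Piece PAR of project GT (MP_dae7ec_co): projection, explicit translation tiling. -/

namespace R178.GT

namespace PARx

theorem det_sub (w p s : ℤ × ℤ) : det w (p - s) = det w p - det w s := by
  unfold det; simp only [Prod.fst_sub, Prod.snd_sub]; ring

theorem det_zero (w : ℤ × ℤ) : det w 0 = 0 := by
  unfold det; simp

theorem core (hb : S_BIT) (i j : ℕ) (a b c w : ℤ × ℤ) (hij : i < j) (hD : V i (det w a))
    (hE : V j (det w b)) (hc : det w c = det w a + det w b) : RT {0, a, b, c} := by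
  obtain ⟨bi, hi1, hi2⟩ := hb i
  obtain ⟨bj, hj1, _⟩ := hb j
  have k1 : ∀ z, bi (z - det w a) = !bi z := fun z => by
    have h := hi1 _ hD (z - det w a)
    rw [sub_add_cancel] at h
    rw [h, Bool.not_not]
  have k2 : ∀ z, bi (z - det w b) = bi z := fun z => by
    have h := hi2 j _ hij hE (z - det w b)
    rw [sub_add_cancel] at h
    exact h.symm
  have k3 : ∀ z, bi (z - (det w a + det w b)) = !bi z := fun z => by
    rw [← sub_sub, k2, k1]
  have k4 : ∀ z, bj (z - det w b) = !bj z := fun z => by
    have h := hj1 _ hE (z - det w b)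
    rw [sub_add_cancel] at h
    rw [h, Bool.not_not]
  have k5 : ∀ z, bj (z - (det w a + det w b)) = !bj (z - det w a) := fun z => by
    rw [← sub_sub, k4]
  refine ⟨{q | q.1 = 0 ∧ bi (det w q.2) = false ∧ bj (det w q.2) = false}, fun p => ?_⟩
  have a0 : det w (p - 0) = det w p := by rw [sub_zero]
  have aa : det w (p - a) = det w p - det w a := det_sub w p a
  have ab : det w (p - b) = det w p - det w b := det_sub w p b
  have ac : det w (p - c) = det w p - (det w a + det w b) := by rw [det_sub, hc]
  have key : ∃ s ∈ ({0, a, b, c} : Set (ℤ × ℤ)), bi (det w (p - s)) = false ∧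
      bj (det w (p - s)) = false ∧ ∀ s' ∈ ({0, a, b, c} : Set (ℤ × ℤ)),
        bi (det w (p - s')) = false → bj (det w (p - s')) = false → s' = s := by
    rcases h1 : bi (det w p) with _ | _
    · rcases h2 : bj (det w p) with _ | _
      · refine ⟨0, by simp, by rw [a0, h1], by rw [a0, h2], ?_⟩
        intro s' hs' u1 u2
        simp only [Set.mem_insert_iff, Set.mem_singleton_iff] at hs'
        rcases hs' with h | h | h | h
        · exact h
        · rw [h, aa, k1, h1] at u1; simp at u1
        · rw [h, ab, k4, h2] at u2; simp at u2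
        · rw [h, ac, k3, h1] at u1; simp at u1
      · refine ⟨b, by simp, by rw [ab, k2, h1], by rw [ab, k4, h2]; rfl, ?_⟩
        intro s' hs' u1 u2
        simp only [Set.mem_insert_iff, Set.mem_singleton_iff] at hs'
        rcases hs' with h | h | h | h
        · rw [h, a0, h2] at u2; simp at u2
        · rw [h, aa, k1, h1] at u1; simp at u1
        · exact h
        · rw [h, ac, k3, h1] at u1; simp at u1
    · rcases h3 : bj (det w p - det w a) with _ | _
      · refine ⟨a, by simp, by rw [aa, k1, h1]; rfl, by rw [aa, h3], ?_⟩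
        intro s' hs' u1 u2
        simp only [Set.mem_insert_iff, Set.mem_singleton_iff] at hs'
        rcases hs' with h | h | h | h
        · rw [h, a0, h1] at u1; simp at u1
        · exact h
        · rw [h, ab, k2, h1] at u1; simp at u1
        · rw [h, ac, k5, h3] at u2; simp at u2
      · refine ⟨c, by simp, by rw [ac, k3, h1]; rfl, by rw [ac, k5, h3]; rfl, ?_⟩
        intro s' hs' u1 u2
        simp only [Set.mem_insert_iff, Set.mem_singleton_iff] at hs'
        rcases hs' with h | h | h | h
        · rw [h, a0, h1] at u1; simp at u1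
        · rw [h, aa, h3] at u2; simp at u2
        · rw [h, ab, k2, h1] at u1; simp at u1
        · exact h
  obtain ⟨s, hs, g1, g2, g3⟩ := key
  refine ⟨((0, p - s), s), ⟨⟨rfl, g1, g2⟩, hs, ?_⟩, ?_⟩
  · show s + (p - s) = p
    abel
  · rintro ⟨⟨k, t⟩, s'⟩ ⟨⟨hk, u1, u2⟩, hs', he⟩
    have hk' : k = 0 := hk
    subst hk'
    have he' : s' + t = p := he
    have ht : t = p - s' := by rw [← he']; abel
    subst ht
    have := g3 s' hs' u1 u2
    subst this
    rfl

end PARx

theorem t_PAR (hb : S_BIT) : S_PAR := by
  intro i j a b c w hij hD hE hc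
  rcases lt_or_gt_of_ne hij with h | h
  · exact PARx.core hb i j a b c w h hD hE hc
  · have h1 := PARx.core hb j i b a c w h hE hD (by rw [hc, add_comm])
    have e : ({0, a, b, c} : Set (ℤ × ℤ)) = {0, b, a, c} := by
      ext x; simp only [Set.mem_insert_iff, Set.mem_singleton_iff]; tauto
    rw [e]; exact h1

end R178.GT
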