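import Mathlib
import Pool.Agent.R178.GT.Defs5

namespace R178.GT

theorem t_SYM5 (h1 : S_EMB) (h2 : S_EMP) (h3 : S_LEE) (h4 : S_LINE5) : S_SYM5 := by
  rintro ⟨u1, u2⟩ ⟨w1, w2⟩ hu hw huw huw'
  by_cases hdet : det (u1, u2) (w1, w2) = 0
  · have hg : 0 < Int.gcd u1 u2 := by
      rw [Int.gcd_pos_iff]
      by_contra hc
      push Not at hc
      exact hu (by rw [hc.1, hc.2]; rfl)
    obtain ⟨g, d1, d2, hg0, hco, hd1, hd2⟩ := Int.exists_gcd_one' hg
    obtain ⟨r, s, hrs⟩ := Int.isCoprime_iff_gcd_eq_one.mpr hco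
    have hgne : (g : ℤ) ≠ 0 := by
      have : g ≠ 0 := by omega
      exact_mod_cast this
    simp only [det] at hdet
    have hdd : d1 * w2 = d2 * w1 := by
      have h : (g : ℤ) * (d1 * w2 - d2 * w1) = 0 := by
        rw [hd1, hd2] at hdet
        linarith
      rcases mul_eq_zero.mp h with h | h
      · exact absurd h hgne
      · linarith
    set y : ℤ := r * w1 + s * w2 with hy
    have hw1 : w1 = y * d1 := by
      have : y * d1 = w1 * (r * d1 + s * d2) := by
        rw [hy]; linear_combination s * hdd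
      rw [this, hrs, mul_one]
    have hw2 : w2 = y * d2 := by
      have : y * d2 = w2 * (r * d1 + s * d2) := by
        rw [hy]; linear_combination (-r) * hdd
      rw [this, hrs, mul_one]
    have hd : ((d1, d2) : ℤ × ℤ) ≠ 0 := by
      intro h
      rw [Prod.mk_eq_zero] at h
      exact hu (by rw [hd1, hd2, h.1, h.2]; simp)
    have hy0 : y ≠ 0 := by
      intro h
      exact hw (by rw [hw1, hw2, h]; simp)
    have hxy : (g : ℤ) ≠ y := by
      intro h
      exact huw (by rw [hd1, hd2, hw1, hw2, ← h]; simp [mul_comm])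
    have hxy' : (g : ℤ) ≠ -y := by
      intro h
      exact huw' (by rw [hd1, hd2, hw1, hw2, h]; simp [mul_comm])
    have key := h1 _ (d1, d2) hd (h4 g y hgne hy0 hxy hxy')
    have himg : ((fun p : ℤ × ℤ => (p.1 * (d1, d2).1 - p.2 * (d1, d2).2, p.1 * (d1, d2).2 + p.2 * (d1, d2).1)) '' L5 g y)
        = {0, (u1, u2), -(u1, u2), (w1, w2), -(w1, w2)} := by
      unfold L5
      simp only [Set.image_insert_eq, Set.image_singleton]
      rw [hd1, hd2, hw1, hw2]
      congr 1
      · simp
      · congr 1
        · simp [mul_comm]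
        · congr 1
          · simp [mul_comm]
          · congr 1
            · simp
            · simp
    rw [himg] at key
    exact key
  · have key := h2 _ (u1, u2) (w1, w2) hdet h3
    have himg : ((fun p : ℤ × ℤ => (p.1 * (u1, u2).1 + p.2 * (w1, w2).1, p.1 * (u1, u2).2 + p.2 * (w1, w2).2)) ''
        {((0 : ℤ), (0 : ℤ)), (1, 0), (-1, 0), (0, 1), (0, -1)})
        = {0, (u1, u2), -(u1, u2), (w1, w2), -(w1, w2)} := by
      simp only [Set.image_insert_eq, Set.image_singleton]
      simp
      rfl
    rw [himg] at key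
    exact key

end R178.GT
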