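import Mathlib
import Pool.Agent.R178.GT.Defs

set_option autoImplicit false

namespace R178.GT

namespace T22x

/-- the condition that the element `s` covers the point `p` -/
def Cond (b b' : ℤ → Bool) (p : ℤ × ℤ) (s : ℤ) : Prop :=
  (p.1 + p.2 - s) % 2 = 0 ∧
    ((if b' (p.1 + p.2 - s) = true then p.2 - s else p.2) % 2 = 1 ↔ b (p.1 + p.2 - s) = true)

theorem even_of_V {i : ℕ} {m : ℤ} (hi : 1 ≤ i) (h : V i m) : m % 2 = 0 := by
  obtain ⟨u, hu⟩ := h
  obtain ⟨k, rfl⟩ : ∃ k, i = k + 1 := ⟨i - 1, by omega⟩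
  rw [hu, pow_succ]
  have : (2 : ℤ) ^ k * 2 * (2 * u + 1) = 2 * (2 ^ k * (2 * u + 1)) := by ring
  rw [this]
  exact Int.mul_emod_right 2 _

theorem key (b b' : ℤ → Bool) (m n c : ℤ) (hm : m % 2 = 0) (hn : n % 2 = 0) (hc : c % 2 = 1)
    (h1 : ∀ z, b (z + m) = !b z) (h2 : ∀ z, b (z + n) = b z) (h3 : ∀ z, b' (z + n) = !b' z)
    (p : ℤ × ℤ) : ∃ s0, (s0 = 0 ∨ s0 = m ∨ s0 = c ∨ s0 = c + n) ∧ Cond b b' p s0 ∧
      ∀ s, (s = 0 ∨ s = m ∨ s = c ∨ s = c + n) → Cond b b' p s → s = s0 := by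
  obtain ⟨p1, p2⟩ := p
  obtain ⟨z, hz⟩ : ∃ z, z = p1 + p2 := ⟨_, rfl⟩
  unfold Cond
  simp only
  rw [← hz]
  have e1 : b (z - m) = !b z := by
    have h := h1 (z - m)
    rw [sub_add_cancel] at h
    rw [h, Bool.not_not]
  have e2 : b (z - (c + n)) = b (z - c) := by
    have h := h2 (z - (c + n))
    rw [show z - (c + n) + n = z - c by ring] at h
    exact h.symm
  have e3 : b' (z - (c + n)) = !b' (z - c) := by
    have h := h3 (z - (c + n))
    rw [show z - (c + n) + n = z - c by ring] at h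
    rw [h, Bool.not_not]
  have e0 : z - 0 = z := sub_zero z
  rcases Int.emod_two_eq_zero_or_one z with hz2 | hz2
  · -- z even
    have par : ∀ s, s = 0 ∨ s = m →
        ((if b' (z - s) = true then p2 - s else p2) % 2 = 1 ↔ p2 % 2 = 1) := by
      intro s hs
      split_ifs <;> rcases hs with rfl | rfl <;> omega
    by_cases hcase : (p2 % 2 = 1 ↔ b z = true)
    · refine ⟨0, Or.inl rfl, ⟨by omega, ?_⟩, ?_⟩
      · rw [par 0 (Or.inl rfl), e0]
        exact hcase
      · rintro s (rfl | rfl | rfl | rfl) ⟨q1, q2⟩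
        · rfl
        · exfalso
          rw [par s (Or.inr rfl), e1] at q2
          cases hb : b z <;> simp [hb] at hcase q2 <;> omega
        · omega
        · omega
    · refine ⟨m, Or.inr (Or.inl rfl), ⟨by omega, ?_⟩, ?_⟩
      · rw [par m (Or.inr rfl), e1]
        cases hb : b z <;> simp [hb] at hcase ⊢ <;> omega
      · rintro s (rfl | rfl | rfl | rfl) ⟨q1, q2⟩
        · exfalso
          rw [par 0 (Or.inl rfl), e0] at q2
          exact hcase q2
        · rfl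
        · omega
        · omega
  · -- z odd
    cases hg : b' (z - c)
    · -- k = 0 for c, k = 1 for c + n
      have g2 : b' (z - (c + n)) = true := by rw [e3, hg]; rfl
      by_cases hcase : (p2 % 2 = 1 ↔ b (z - c) = true)
      · refine ⟨c, Or.inr (Or.inr (Or.inl rfl)), ⟨by omega, ?_⟩, ?_⟩
        · rw [hg]
          simpa using hcase
        · rintro s (rfl | rfl | rfl | rfl) ⟨q1, q2⟩
          · omega
          · omega
          · rfl
          · exfalso
            rw [g2, e2] at q2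
            cases hb : b (z - c) <;> simp [hb] at hcase q2 <;> omega
      · refine ⟨c + n, Or.inr (Or.inr (Or.inr rfl)), ⟨by omega, ?_⟩, ?_⟩
        · rw [g2, e2]
          cases hb : b (z - c) <;> simp [hb] at hcase ⊢ <;> omega
        · rintro s (rfl | rfl | rfl | rfl) ⟨q1, q2⟩
          · omega
          · omega
          · exfalso
            rw [hg] at q2
            exact hcase (by simpa using q2)
          · rfl
    · have g2 : b' (z - (c + n)) = false := by rw [e3, hg]; rfl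
      by_cases hcase : (p2 % 2 = 1 ↔ b (z - c) = true)
      · refine ⟨c + n, Or.inr (Or.inr (Or.inr rfl)), ⟨by omega, ?_⟩, ?_⟩
        · rw [g2, e2]
          simpa using hcase
        · rintro s (rfl | rfl | rfl | rfl) ⟨q1, q2⟩
          · omega
          · omega
          · exfalso
            rw [hg] at q2
            cases hb : b (z - s) <;> simp [hb] at hcase q2 <;> omega
          · rfl
      · refine ⟨c, Or.inr (Or.inr (Or.inl rfl)), ⟨by omega, ?_⟩, ?_⟩
        · rw [hg]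
          cases hb : b (z - c) <;> simp [hb] at hcase ⊢ <;> omega
        · rintro s (rfl | rfl | rfl | rfl) ⟨q1, q2⟩
          · omega
          · omega
          · rfl
          · exfalso
            rw [g2, e2] at q2
            exact hcase (by simpa using q2)

end T22x

open T22x in
theorem t_T22 (hb : S_BIT) : S_T22 := by
  intro i j m n c hi hij hm hn hc
  obtain ⟨b, hb1, hb2⟩ := hb i
  obtain ⟨b', hb1', -⟩ := hb j
  have hm2 := even_of_V hi hm
  have hn2 := even_of_V (by omega : 1 ≤ j) hn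
  have hk := key b b' m n c hm2 hn2 hc (hb1 m hm) (hb2 j n hij hn) (hb1' n hn)
  refine ⟨{q | (q.2.1 + q.2.2) % 2 = 0 ∧ (q.2.2 % 2 = 1 ↔ b (q.2.1 + q.2.2) = true) ∧
    ((q.1 = 0 ∧ b' (q.2.1 + q.2.2) = false) ∨ (q.1 = 1 ∧ b' (q.2.1 + q.2.2) = true))}, ?_⟩
  rintro ⟨p1, p2⟩
  obtain ⟨s0, hs0, ⟨hc1, hc2⟩, huniq⟩ := hk (p1, p2)
  simp only at hc1 hc2
  have hmem : ((s0, 0) : ℤ × ℤ) ∈ ({((0 : ℤ), (0 : ℤ)), (m, 0), (c, 0), (c + n, 0)} : Set (ℤ × ℤ)) := by
    rcases hs0 with h | h | h | h <;> simp [h]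
  have huniq' : ∀ (k : Fin 4) (t1 t2 : ℤ) (s s' : ℤ),
      (t1 + t2) % 2 = 0 → (t2 % 2 = 1 ↔ b (t1 + t2) = true) →
      ((k = 0 ∧ b' (t1 + t2) = false) ∨ (k = 1 ∧ b' (t1 + t2) = true)) →
      ((s, s') : ℤ × ℤ) ∈ ({((0 : ℤ), (0 : ℤ)), (m, 0), (c, 0), (c + n, 0)} : Set (ℤ × ℤ)) →
      rot k (s, s') + (t1, t2) = (p1, p2) →
      s = s0 ∧ s' = 0 ∧ ((k = 0 ∧ b' (p1 + p2 - s) = false ∧ t1 = p1 - s ∧ t2 = p2) ∨
        (k = 1 ∧ b' (p1 + p2 - s) = true ∧ t1 = p1 ∧ t2 = p2 - s)) := by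
    intro k t1 t2 s s' q1 q2 q3 q4 q5
    simp only [Set.mem_insert_iff, Set.mem_singleton_iff, Prod.mk.injEq] at q4
    have hs' : s' = 0 := by rcases q4 with h | h | h | h <;> exact h.2
    have hs : s = 0 ∨ s = m ∨ s = c ∨ s = c + n := by
      rcases q4 with h | h | h | h
      · exact Or.inl h.1
      · exact Or.inr (Or.inl h.1)
      · exact Or.inr (Or.inr (Or.inl h.1))
      · exact Or.inr (Or.inr (Or.inr h.1))
    subst hs'
    rcases q3 with ⟨rfl, q3⟩ | ⟨rfl, q3⟩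
    · simp only [rot, Prod.mk_add_mk, Prod.mk.injEq] at q5
      obtain ⟨q5, q6⟩ := q5
      have ht1 : t1 = p1 - s := by omega
      have ht2 : t2 = p2 := by omega
      have hsum : t1 + t2 = p1 + p2 - s := by omega
      rw [hsum] at q1 q2 q3
      refine ⟨huniq s hs ⟨q1, ?_⟩, rfl, Or.inl ⟨rfl, q3, ht1, ht2⟩⟩
      simp only
      rw [q3]
      rw [ht2] at q2
      simpa using q2
    · simp only [rot, Prod.mk_add_mk, Prod.mk.injEq] at q5
      obtain ⟨q5, q6⟩ := q5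
      have ht1 : t1 = p1 := by omega
      have ht2 : t2 = p2 - s := by omega
      have hsum : t1 + t2 = p1 + p2 - s := by omega
      rw [hsum] at q1 q2 q3
      refine ⟨huniq s hs ⟨q1, ?_⟩, rfl, Or.inr ⟨rfl, q3, ht1, ht2⟩⟩
      simp only
      rw [q3]
      rw [ht2] at q2
      simpa using q2
  cases hg : b' (p1 + p2 - s0)
  · rw [hg] at hc2
    have hc3 : (p2 % 2 = 1 ↔ b (p1 + p2 - s0) = true) := by simpa using hc2
    refine ⟨((0, (p1 - s0, p2)), (s0, 0)), ⟨⟨?_, ?_, ?_⟩, hmem, ?_⟩, ?_⟩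
    · simp only
      rw [show p1 - s0 + p2 = p1 + p2 - s0 by ring]
      exact hc1
    · simp only
      rw [show p1 - s0 + p2 = p1 + p2 - s0 by ring]
      exact hc3
    · left
      simp only
      rw [show p1 - s0 + p2 = p1 + p2 - s0 by ring]
      exact ⟨trivial, hg⟩
    · simp [rot]
    · rintro ⟨⟨k, ⟨t1, t2⟩⟩, ⟨s, s'⟩⟩ ⟨⟨q1, q2, q3⟩, q4, q5⟩
      obtain ⟨rfl, rfl, h | h⟩ := huniq' k t1 t2 s s' q1 q2 q3 q4 q5
      · obtain ⟨rfl, -, rfl, rfl⟩ := h
        rfl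
      · rw [hg] at h
        simp at h
  · rw [hg] at hc2
    have hc3 : ((p2 - s0) % 2 = 1 ↔ b (p1 + p2 - s0) = true) := by simpa using hc2
    refine ⟨((1, (p1, p2 - s0)), (s0, 0)), ⟨⟨?_, ?_, ?_⟩, hmem, ?_⟩, ?_⟩
    · simp only
      rw [show p1 + (p2 - s0) = p1 + p2 - s0 by ring]
      exact hc1
    · simp only
      rw [show p1 + (p2 - s0) = p1 + p2 - s0 by ring]
      exact hc3
    · right
      simp only
      rw [show p1 + (p2 - s0) = p1 + p2 - s0 by ring]
      exact ⟨trivial, hg⟩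
    · simp [rot]
    · rintro ⟨⟨k, ⟨t1, t2⟩⟩, ⟨s, s'⟩⟩ ⟨⟨q1, q2, q3⟩, q4, q5⟩
      obtain ⟨rfl, rfl, h | h⟩ := huniq' k t1 t2 s s' q1 q2 q3 q4 q5
      · rw [hg] at h
        simp at h
      · obtain ⟨rfl, -, rfl, rfl⟩ := h
        rfl

end R178.GT
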