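import Mathlib
import Pool.Agent.R178.GT.Defs

/-! GT-T22E (helper45). -/

namespace R178.GT

theorem t_T22E (hb : S_BIT) : S_T22E := by
  intro i m n c hi hm hn hc
  obtain ⟨b, hb1, -⟩ := hb i
  have hbm : ∀ z, b (z - m) = !b z := by
    intro z
    have h := hb1 m hm (z - m)
    rw [sub_add_cancel] at h
    rw [h, Bool.not_not]
  have hbn : ∀ z, b (z - n) = !b z := by
    intro z
    have h := hb1 n hn (z - n)
    rw [sub_add_cancel] at h
    rw [h, Bool.not_not]
  have heven : ∀ k : ℤ, V i k → k % 2 = 0 := by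
    rintro k ⟨u, rfl⟩
    obtain ⟨j, rfl⟩ : ∃ j, i = j + 1 := ⟨i - 1, by omega⟩
    have : (2 : ℤ) ^ (j + 1) * (2 * u + 1) = 2 * (2 ^ j * (2 * u + 1)) := by ring
    rw [this]
    exact Int.mul_emod_right _ _
  have hm2 := heven m hm
  have hn2 := heven n hn
  refine ⟨{q | q.1 = 0 ∧ q.2.1 % 2 = 0 ∧ b q.2.1 = false}, ?_⟩
  rintro ⟨z, y⟩
  have key : ∃ s0 : ℤ, (s0 = 0 ∨ s0 = m ∨ s0 = c ∨ s0 = c + n) ∧ (z - s0) % 2 = 0 ∧
      b (z - s0) = false ∧ ∀ s, (s = 0 ∨ s = m ∨ s = c ∨ s = c + n) → (z - s) % 2 = 0 →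
        b (z - s) = false → s = s0 := by
    rcases Int.emod_two_eq_zero_or_one z with hz | hz
    · cases hbz : b z with
      | false =>
        refine ⟨0, Or.inl rfl, by omega, by rw [sub_zero]; exact hbz, ?_⟩
        rintro s (h | h | h | h) h1 h2
        · exact h
        · rw [h, hbm, hbz] at h2
          exact absurd h2 (by decide)
        · omega
        · omega
      | true =>
        refine ⟨m, Or.inr (Or.inl rfl), by omega, by rw [hbm, hbz]; rfl, ?_⟩
        rintro s (h | h | h | h) h1 h2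
        · rw [h, sub_zero, hbz] at h2
          exact absurd h2 (by decide)
        · exact h
        · omega
        · omega
    · cases hbz : b (z - c) with
      | false =>
        refine ⟨c, Or.inr (Or.inr (Or.inl rfl)), by omega, hbz, ?_⟩
        rintro s (h | h | h | h) h1 h2
        · omega
        · omega
        · exact h
        · rw [h, show z - (c + n) = z - c - n by ring, hbn, hbz] at h2
          exact absurd h2 (by decide)
      | true =>
        refine ⟨c + n, Or.inr (Or.inr (Or.inr rfl)), by omega, ?_, ?_⟩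
        · rw [show z - (c + n) = z - c - n by ring, hbn, hbz]; rfl
        · rintro s (h | h | h | h) h1 h2
          · omega
          · omega
          · rw [h, hbz] at h2
            exact absurd h2 (by decide)
          · exact h
  obtain ⟨s0, h1, h2, h3, h4⟩ := key
  refine ⟨((0, (z - s0, y)), (s0, 0)), ⟨⟨rfl, h2, h3⟩, ?_, ?_⟩, ?_⟩
  · rcases h1 with h1 | h1 | h1 | h1 <;> simp [h1]
  · simp [rot]
  · rintro ⟨⟨k, t1, t2⟩, ⟨s1, s2⟩⟩ ⟨⟨hk, ht, hbt⟩, hs, hrot⟩
    have hk' : k = 0 := hk
    subst hk'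
    have hs' : s2 = 0 ∧ (s1 = 0 ∨ s1 = m ∨ s1 = c ∨ s1 = c + n) := by
      simp only [Set.mem_insert_iff, Set.mem_singleton_iff, Prod.mk.injEq] at hs
      tauto
    obtain ⟨hs2, hs1⟩ := hs'
    subst hs2
    have hr : s1 + t1 = z ∧ (0 : ℤ) + t2 = y := by
      simpa [rot, Prod.ext_iff] using hrot
    obtain ⟨hr1, hr2⟩ := hr
    have ht1 : t1 = z - s1 := by linarith
    have ht2 : t2 = y := by linarith
    simp only at ht hbt
    rw [ht1] at ht hbt
    have := h4 s1 hs1 ht hbt
    rw [ht1, ht2, this]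

end R178.GT
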