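import Mathlib
import Pool.Agent.R178.GT.Defs

namespace R178.GT
namespace T31x

/-- reduction to a Boolean table -/
lemma red (Q : Set (Fin 4 × (ℤ × ℤ))) (σ : Fin 4 → ℤ) (p : ℤ × ℤ) (F : Fin 4 × Fin 4 → Bool)
    (hF : ∀ k l, (k, p - rot k (σ l, 0)) ∈ Q ↔ F (k, l) = true)
    (hu : ∃! q, F q = true) (S : Set (ℤ × ℤ)) (hS : ∀ s, s ∈ S ↔ ∃ l, s = (σ l, 0)) :
    ∃! x : (Fin 4 × (ℤ × ℤ)) × (ℤ × ℤ), x.1 ∈ Q ∧ x.2 ∈ S ∧ rot x.1.1 x.2 + x.1.2 = p := by
  obtain ⟨⟨k, l⟩, h1, h2⟩ := hu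
  refine ⟨((k, p - rot k (σ l, 0)), (σ l, 0)), ⟨(hF k l).2 h1, (hS _).2 ⟨l, rfl⟩, by simp⟩, ?_⟩
  rintro ⟨⟨k', t⟩, s⟩ ⟨hx1, hx2, hx3⟩
  obtain ⟨l', rfl⟩ := (hS _).1 hx2
  have ht : t = p - rot k' (σ l', 0) := by rw [← hx3]; simp
  subst ht
  have h3 := h2 (k', l') ((hF k' l').1 hx1)
  rw [Prod.mk.injEq] at h3
  obtain ⟨rfl, rfl⟩ := h3
  rfl

/-- the condition on a centre with coordinate sum `sg` and second coordinate `y` -/
def C (b b' : ℤ → Bool) (c m : ℤ) : Fin 4 → ℤ → ℤ → Prop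
  | 0, sg, y => (y % 2 = 1 ↔ b sg = true) ∧ sg % 2 = 0 ∧ b' sg = false ∧ b (sg + c) ≠ b sg
  | 1, sg, y => (y % 2 = 1 ↔ b sg = true) ∧ sg % 2 = 0 ∧ b' sg = false ∧ b (sg + c) = b sg
  | 2, sg, y => (y % 2 = 1 ↔ b sg = true) ∧ sg % 2 = 1 ∧ b' (sg - c - m) = true ∧
      b (sg - c) ≠ b sg
  | 3, sg, y => (y % 2 = 1 ↔ b sg = true) ∧ sg % 2 = 1 ∧ b' (sg - c - m) = true ∧
      b (sg - c) = b sg

/-- table for `z` even -/
def FE (o B Bc D Dm : Bool) : Fin 4 × Fin 4 → Bool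
  | (0, 0) => (o == B) && !D && (Bc != B)
  | (1, 0) => (o == B) && !D && (Bc == B)
  | (0, 1) => (o == B) && D && (Bc != B)
  | (1, 1) => (o == B) && D && (Bc == B)
  | (0, 2) => (o == !B) && !Dm && (Bc != B)
  | (1, 2) => (o == !B) && !Dm && (Bc == B)
  | (2, 3) => (o == Bc) && Dm && (B != Bc)
  | (3, 3) => ((!o) == Bc) && Dm && (B == Bc)
  | _ => false

/-- table for `z` odd -/
def FO (o B Bc D Dm : Bool) : Fin 4 × Fin 4 → Bool
  | (2, 0) => (o == B) && D && (Bc != B)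
  | (3, 0) => (o == B) && D && (Bc == B)
  | (2, 1) => (o == B) && !D && (Bc != B)
  | (3, 1) => (o == B) && !D && (Bc == B)
  | (2, 2) => (o == !B) && Dm && (Bc != B)
  | (3, 2) => (o == !B) && Dm && (Bc == B)
  | (0, 3) => (o == Bc) && !Dm && (B != Bc)
  | (1, 3) => ((!o) == Bc) && !Dm && (B == Bc)
  | _ => false

lemma uE : ∀ o B Bc D Dm : Bool, ∃! q, FE o B Bc D Dm q = true := by
  unfold ExistsUnique; decide

lemma uO : ∀ o B Bc D Dm : Bool, ∃! q, FO o B Bc D Dm q = true := by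
  unfold ExistsUnique; decide

end T31x

open T31x in
theorem t_T31 (hb : S_BIT) : S_T31 := by
  intro i j m n c hi hij hVi hVj hc
  obtain ⟨b, hb1, hb2⟩ := hb i
  obtain ⟨b', hb1', _⟩ := hb j
  have hm : m % 2 = 0 := by
    obtain ⟨u, rfl⟩ := hVi
    obtain ⟨k, rfl⟩ : ∃ k, i = k + 1 := ⟨i - 1, by omega⟩
    have : (2 : ℤ) ^ (k + 1) * (2 * u + 1) = 2 * (2 ^ k * (2 * u + 1)) := by ring
    rw [this]; omega
  have hn : n % 2 = 0 := by
    obtain ⟨u, rfl⟩ := hVj
    obtain ⟨k, rfl⟩ : ∃ k, j = k + 1 := ⟨j - 1, by omega⟩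
    have : (2 : ℤ) ^ (k + 1) * (2 * u + 1) = 2 * (2 ^ k * (2 * u + 1)) := by ring
    rw [this]; omega
  have bm : ∀ z, b (z + m) = !b z := hb1 m hVi
  have bm' : ∀ z, b (z - m) = !b z := by
    intro z
    have := bm (z - m)
    rw [sub_add_cancel] at this
    rw [this, Bool.not_not]
  have bn : ∀ z, b (z + n) = b z := hb2 j n hij hVj
  have bn' : ∀ z, b (z - n) = b z := by
    intro z
    have := bn (z - n)
    rw [sub_add_cancel] at this
    exact this.symm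
  have dn : ∀ z, b' (z + n) = !b' z := hb1' n hVj
  have dn' : ∀ z, b' (z - n) = !b' z := by
    intro z
    have := dn (z - n)
    rw [sub_add_cancel] at this
    rw [this, Bool.not_not]
  refine ⟨{q | C b b' c m q.1 (q.2.1 + q.2.2) q.2.2}, ?_⟩
  intro p
  have h0 : ∀ s : ℤ, (0, p - rot 0 (s, 0)) ∈ {q : Fin 4 × (ℤ × ℤ) | C b b' c m q.1 (q.2.1 + q.2.2) q.2.2} ↔
      C b b' c m 0 (p.1 + p.2 - s) p.2 := by
    intro s
    have e : (p - rot 0 (s, 0)).1 + (p - rot 0 (s, 0)).2 = p.1 + p.2 - s := by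
      simp [rot]; ring
    have e2 : (p - rot 0 (s, 0)).2 = p.2 := by simp [rot]
    show C b b' c m 0 _ _ ↔ _
    rw [e, e2]
  have h1 : ∀ s : ℤ, (1, p - rot 1 (s, 0)) ∈ {q : Fin 4 × (ℤ × ℤ) | C b b' c m q.1 (q.2.1 + q.2.2) q.2.2} ↔
      C b b' c m 1 (p.1 + p.2 - s) (p.2 - s) := by
    intro s
    have e : (p - rot 1 (s, 0)).1 + (p - rot 1 (s, 0)).2 = p.1 + p.2 - s := by
      simp [rot]; ring
    have e2 : (p - rot 1 (s, 0)).2 = p.2 - s := by simp [rot]
    show C b b' c m 1 _ _ ↔ _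
    rw [e, e2]
  have h2 : ∀ s : ℤ, (2, p - rot 2 (s, 0)) ∈ {q : Fin 4 × (ℤ × ℤ) | C b b' c m q.1 (q.2.1 + q.2.2) q.2.2} ↔
      C b b' c m 2 (p.1 + p.2 + s) p.2 := by
    intro s
    have e : (p - rot 2 (s, 0)).1 + (p - rot 2 (s, 0)).2 = p.1 + p.2 + s := by
      simp [rot]; ring
    have e2 : (p - rot 2 (s, 0)).2 = p.2 := by simp [rot]
    show C b b' c m 2 _ _ ↔ _
    rw [e, e2]
  have h3 : ∀ s : ℤ, (3, p - rot 3 (s, 0)) ∈ {q : Fin 4 × (ℤ × ℤ) | C b b' c m q.1 (q.2.1 + q.2.2) q.2.2} ↔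
      C b b' c m 3 (p.1 + p.2 + s) (p.2 + s) := by
    intro s
    have e : (p - rot 3 (s, 0)).1 + (p - rot 3 (s, 0)).2 = p.1 + p.2 + s := by
      simp [rot]; ring
    have e2 : (p - rot 3 (s, 0)).2 = p.2 + s := by simp [rot]
    show C b b' c m 3 _ _ ↔ _
    rw [e, e2]
  have hS : ∀ s : ℤ × ℤ, s ∈ ({((0 : ℤ), (0 : ℤ)), (n, 0), (m, 0), (c, 0)} : Set (ℤ × ℤ)) ↔
      ∃ l : Fin 4, s = ((![0, n, m, c] : Fin 4 → ℤ) l, 0) := by
    intro s
    simp only [Set.mem_insert_iff, Set.mem_singleton_iff]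
    constructor
    · rintro (rfl | rfl | rfl | rfl)
      · exact ⟨0, rfl⟩
      · exact ⟨1, rfl⟩
      · exact ⟨2, rfl⟩
      · exact ⟨3, rfl⟩
    · rintro ⟨l, rfl⟩
      fin_cases l <;> simp
  generalize hzz : p.1 + p.2 = z at h0 h1 h2 h3
  generalize hyy : p.2 = y at h0 h1 h2 h3
  have yn : (y - n) % 2 = y % 2 := by omega
  have ym : (y - m) % 2 = y % 2 := by omega
  have yn' : (y + n) % 2 = y % 2 := by omega
  have ym' : (y + m) % 2 = y % 2 := by omega
  have yc : (y - c) % 2 = 1 - y % 2 := by omega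
  have yc' : (y + c) % 2 = 1 - y % 2 := by omega
  rcases Int.emod_two_eq_zero_or_one z with hz | hz
  · have f1 : b (z - n + c) = b (z + c) := by rw [show z - n + c = (z + c) - n by ring, bn']
    have f2 : b (z - m + c) = !b (z + c) := by rw [show z - m + c = (z + c) - m by ring, bm']
    have f3 := bn' z
    have f4 := bm' z
    have f5 := dn' z
    have g1 : b' (z + c - c - m) = b' (z - m) := by rw [show z + c - c - m = z - m by ring]
    have g2 : b (z + c - c) = b z := by rw [show z + c - c = z by ring]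
    have p1 : (z - n) % 2 = 0 := by omega
    have p2 : (z - m) % 2 = 0 := by omega
    have p3 : (z - c) % 2 = 1 := by omega
    have p4 : (z + n) % 2 = 0 := by omega
    have p5 : (z + m) % 2 = 0 := by omega
    have p6 : (z + c) % 2 = 1 := by omega
    have key : ∀ o : Bool, (y % 2 = if o = true then 1 else 0) →
        (C b b' c m 0 (z - 0) y ↔ FE o (b z) (b (z + c)) (b' z) (b' (z - m)) (0, 0) = true) ∧
        (C b b' c m 0 (z - n) y ↔ FE o (b z) (b (z + c)) (b' z) (b' (z - m)) (0, 1) = true) ∧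
        (C b b' c m 0 (z - m) y ↔ FE o (b z) (b (z + c)) (b' z) (b' (z - m)) (0, 2) = true) ∧
        (C b b' c m 0 (z - c) y ↔ FE o (b z) (b (z + c)) (b' z) (b' (z - m)) (0, 3) = true) ∧
        (C b b' c m 1 (z - 0) (y - 0) ↔ FE o (b z) (b (z + c)) (b' z) (b' (z - m)) (1, 0) = true) ∧
        (C b b' c m 1 (z - n) (y - n) ↔ FE o (b z) (b (z + c)) (b' z) (b' (z - m)) (1, 1) = true) ∧
        (C b b' c m 1 (z - m) (y - m) ↔ FE o (b z) (b (z + c)) (b' z) (b' (z - m)) (1, 2) = true) ∧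
        (C b b' c m 1 (z - c) (y - c) ↔ FE o (b z) (b (z + c)) (b' z) (b' (z - m)) (1, 3) = true) ∧
        (C b b' c m 2 (z + 0) y ↔ FE o (b z) (b (z + c)) (b' z) (b' (z - m)) (2, 0) = true) ∧
        (C b b' c m 2 (z + n) y ↔ FE o (b z) (b (z + c)) (b' z) (b' (z - m)) (2, 1) = true) ∧
        (C b b' c m 2 (z + m) y ↔ FE o (b z) (b (z + c)) (b' z) (b' (z - m)) (2, 2) = true) ∧
        (C b b' c m 2 (z + c) y ↔ FE o (b z) (b (z + c)) (b' z) (b' (z - m)) (2, 3) = true) ∧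
        (C b b' c m 3 (z + 0) (y + 0) ↔ FE o (b z) (b (z + c)) (b' z) (b' (z - m)) (3, 0) = true) ∧
        (C b b' c m 3 (z + n) (y + n) ↔ FE o (b z) (b (z + c)) (b' z) (b' (z - m)) (3, 1) = true) ∧
        (C b b' c m 3 (z + m) (y + m) ↔ FE o (b z) (b (z + c)) (b' z) (b' (z - m)) (3, 2) = true) ∧
        (C b b' c m 3 (z + c) (y + c) ↔ FE o (b z) (b (z + c)) (b' z) (b' (z - m)) (3, 3) = true) := by
      intro o ho
      refine ⟨?_, ?_, ?_, ?_, ?_, ?_, ?_, ?_, ?_, ?_, ?_, ?_, ?_, ?_, ?_, ?_⟩ <;>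
        simp only [C, FE, sub_zero, add_zero, f1, f2, f3, f4, f5, g1, g2, p1, p2, p3, p4, p5, p6,
          yn, ym, yn', ym', yc, yc', ho, hz] <;>
        cases o <;> cases b z <;> cases b (z + c) <;> cases b' z <;> cases b' (z - m) <;> simp
    obtain ⟨a1, a2, a3, a4, a5, a6, a7, a8, a9, a10, a11, a12, a13, a14, a15, a16⟩ :=
      key (decide (y % 2 = 1)) (by
        rcases Int.emod_two_eq_zero_or_one y with hy | hy <;> simp [hy])
    refine red _ ![0, n, m, c] p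
      (FE (decide (y % 2 = 1)) (b z) (b (z + c)) (b' z) (b' (z - m))) ?_ (uE ..) _ hS
    intro k l
    fin_cases k <;> fin_cases l
    · exact (h0 0).trans a1
    · exact (h0 n).trans a2
    · exact (h0 m).trans a3
    · exact (h0 c).trans a4
    · exact (h1 0).trans a5
    · exact (h1 n).trans a6
    · exact (h1 m).trans a7
    · exact (h1 c).trans a8
    · exact (h2 0).trans a9
    · exact (h2 n).trans a10
    · exact (h2 m).trans a11
    · exact (h2 c).trans a12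
    · exact (h3 0).trans a13
    · exact (h3 n).trans a14
    · exact (h3 m).trans a15
    · exact (h3 c).trans a16
  · have f1 : b' (z + n - c - m) = !b' (z - c - m) := by
      rw [show z + n - c - m = (z - c - m) + n by ring, dn]
    have f2 : b (z + n - c) = b (z - c) := by rw [show z + n - c = (z - c) + n by ring, bn]
    have f3 := bn z
    have f4 := bm z
    have f5 : b' (z + m - c - m) = b' (z - c) := by rw [show z + m - c - m = z - c by ring]
    have f6 : b (z + m - c) = !b (z - c) := by rw [show z + m - c = (z - c) + m by ring, bm]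
    have g1 : b (z - c + c) = b z := by rw [show z - c + c = z by ring]
    have p1 : (z - n) % 2 = 1 := by omega
    have p2 : (z - m) % 2 = 1 := by omega
    have p3 : (z - c) % 2 = 0 := by omega
    have p4 : (z + n) % 2 = 1 := by omega
    have p5 : (z + m) % 2 = 1 := by omega
    have p6 : (z + c) % 2 = 0 := by omega
    have key : ∀ o : Bool, (y % 2 = if o = true then 1 else 0) →
        (C b b' c m 0 (z - 0) y ↔ FO o (b z) (b (z - c)) (b' (z - c - m)) (b' (z - c)) (0, 0) = true) ∧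
        (C b b' c m 0 (z - n) y ↔ FO o (b z) (b (z - c)) (b' (z - c - m)) (b' (z - c)) (0, 1) = true) ∧
        (C b b' c m 0 (z - m) y ↔ FO o (b z) (b (z - c)) (b' (z - c - m)) (b' (z - c)) (0, 2) = true) ∧
        (C b b' c m 0 (z - c) y ↔ FO o (b z) (b (z - c)) (b' (z - c - m)) (b' (z - c)) (0, 3) = true) ∧
        (C b b' c m 1 (z - 0) (y - 0) ↔ FO o (b z) (b (z - c)) (b' (z - c - m)) (b' (z - c)) (1, 0) = true) ∧
        (C b b' c m 1 (z - n) (y - n) ↔ FO o (b z) (b (z - c)) (b' (z - c - m)) (b' (z - c)) (1, 1) = true) ∧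
        (C b b' c m 1 (z - m) (y - m) ↔ FO o (b z) (b (z - c)) (b' (z - c - m)) (b' (z - c)) (1, 2) = true) ∧
        (C b b' c m 1 (z - c) (y - c) ↔ FO o (b z) (b (z - c)) (b' (z - c - m)) (b' (z - c)) (1, 3) = true) ∧
        (C b b' c m 2 (z + 0) y ↔ FO o (b z) (b (z - c)) (b' (z - c - m)) (b' (z - c)) (2, 0) = true) ∧
        (C b b' c m 2 (z + n) y ↔ FO o (b z) (b (z - c)) (b' (z - c - m)) (b' (z - c)) (2, 1) = true) ∧
        (C b b' c m 2 (z + m) y ↔ FO o (b z) (b (z - c)) (b' (z - c - m)) (b' (z - c)) (2, 2) = true) ∧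
        (C b b' c m 2 (z + c) y ↔ FO o (b z) (b (z - c)) (b' (z - c - m)) (b' (z - c)) (2, 3) = true) ∧
        (C b b' c m 3 (z + 0) (y + 0) ↔ FO o (b z) (b (z - c)) (b' (z - c - m)) (b' (z - c)) (3, 0) = true) ∧
        (C b b' c m 3 (z + n) (y + n) ↔ FO o (b z) (b (z - c)) (b' (z - c - m)) (b' (z - c)) (3, 1) = true) ∧
        (C b b' c m 3 (z + m) (y + m) ↔ FO o (b z) (b (z - c)) (b' (z - c - m)) (b' (z - c)) (3, 2) = true) ∧
        (C b b' c m 3 (z + c) (y + c) ↔ FO o (b z) (b (z - c)) (b' (z - c - m)) (b' (z - c)) (3, 3) = true) := by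
      intro o ho
      refine ⟨?_, ?_, ?_, ?_, ?_, ?_, ?_, ?_, ?_, ?_, ?_, ?_, ?_, ?_, ?_, ?_⟩ <;>
        simp only [C, FO, sub_zero, add_zero, f1, f2, f3, f4, f5, f6, g1, p1, p2, p3, p4, p5, p6,
          yn, ym, yn', ym', yc, yc', ho, hz] <;>
        cases o <;> cases b z <;> cases b (z - c) <;> cases b' (z - c - m) <;>
          cases b' (z - c) <;> simp
    obtain ⟨a1, a2, a3, a4, a5, a6, a7, a8, a9, a10, a11, a12, a13, a14, a15, a16⟩ :=
      key (decide (y % 2 = 1)) (by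
        rcases Int.emod_two_eq_zero_or_one y with hy | hy <;> simp [hy])
    refine red _ ![0, n, m, c] p
      (FO (decide (y % 2 = 1)) (b z) (b (z - c)) (b' (z - c - m)) (b' (z - c))) ?_ (uO ..) _ hS
    intro k l
    fin_cases k <;> fin_cases l
    · exact (h0 0).trans a1
    · exact (h0 n).trans a2
    · exact (h0 m).trans a3
    · exact (h0 c).trans a4
    · exact (h1 0).trans a5
    · exact (h1 n).trans a6
    · exact (h1 m).trans a7
    · exact (h1 c).trans a8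
    · exact (h2 0).trans a9
    · exact (h2 n).trans a10
    · exact (h2 m).trans a11
    · exact (h2 c).trans a12
    · exact (h3 0).trans a13
    · exact (h3 n).trans a14
    · exact (h3 m).trans a15
    · exact (h3 c).trans a16

end R178.GT
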