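import Mathlib
import Pool.Agent.R178.GT.Defs

/-! GT, piece TR: translation invariance -/

namespace R178.GT

namespace TRx

lemma rot_add (k : Fin 4) (p c : ℤ × ℤ) : rot k (p + c) = rot k p + rot k c := by
  fin_cases k <;> simp [rot, Prod.ext_iff] <;> ring_nf <;> simp

end TRx

open TRx

theorem t_TR : S_TR := by
  intro S c hS
  obtain ⟨Q, hQ⟩ := hS
  refine ⟨{q | (q.1, q.2 + rot q.1 c) ∈ Q}, ?_⟩
  intro p
  obtain ⟨x, ⟨hx1, hx2, hx3⟩, hu⟩ := hQ p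
  refine ⟨((x.1.1, x.1.2 - rot x.1.1 c), x.2 + c), ⟨?_, ?_, ?_⟩, ?_⟩
  · simp only [Set.mem_setOf_eq, sub_add_cancel]
    exact hx1
  · exact ⟨x.2, hx2, rfl⟩
  · simp only [rot_add]
    rw [← hx3]
    abel
  · rintro ⟨⟨k, t⟩, s'⟩ ⟨hy1, ⟨s, hs, hs'⟩, hy3⟩
    simp only at hy1 hs' hy3
    have h := hu ((k, t + rot k c), s) ⟨hy1, hs, by
      simp only
      rw [← hy3, ← hs', rot_add]
      abel⟩
    rw [← h, ← hs']
    simp

end R178.GT
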