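import Mathlib
import Pool.Agent.R178.GT.Defs

set_option autoImplicit false

/-! helper518: trapezoids (piece TRA of the project GT, MP_dae7ec_co). -/

namespace R178.GT

namespace TRAx

lemma exV (m : ℤ) (hm : m ≠ 0) : ∃ i, V i m := by
  obtain ⟨k, l, hl, he⟩ := Nat.exists_eq_two_pow_mul_odd (n := m.natAbs) (by omega)
  obtain ⟨r, hr⟩ := hl
  refine ⟨k, ?_⟩
  rcases Int.natAbs_eq m with h | h
  · refine ⟨r, ?_⟩
    rw [h, he, hr]
    push_cast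
    ring
  · refine ⟨-(r : ℤ) - 1, ?_⟩
    rw [h, he, hr]
    push_cast
    ring

lemma par (a e : ℤ × ℤ) (ha : a ≠ 0) (he : e ≠ 0) (h : det a e = 0) :
    ∃ (d : ℤ × ℤ) (m n : ℤ), m ≠ 0 ∧ n ≠ 0 ∧ a = (m * d.1, m * d.2) ∧ e = (n * d.1, n * d.2) := by
  obtain ⟨a1, a2⟩ := a
  obtain ⟨e1, e2⟩ := e
  simp only [det] at h
  have hg : (Int.gcd a1 a2 : ℤ) ≠ 0 := by
    intro h0
    have h1 : Int.gcd a1 a2 = 0 := by exact_mod_cast h0
    rw [Int.gcd_eq_zero_iff] at h1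
    exact ha (by rw [h1.1, h1.2]; rfl)
  obtain ⟨d1, hd1⟩ := Int.gcd_dvd_left (a := a1) (b := a2)
  obtain ⟨d2, hd2⟩ := Int.gcd_dvd_right (a := a1) (b := a2)
  have hb := Int.gcd_eq_gcd_ab a1 a2
  obtain ⟨g, hgd⟩ : ∃ g : ℤ, g = (Int.gcd a1 a2 : ℤ) := ⟨_, rfl⟩
  obtain ⟨u, hu⟩ : ∃ u : ℤ, u = Int.gcdA a1 a2 := ⟨_, rfl⟩
  obtain ⟨v, hv⟩ : ∃ v : ℤ, v = Int.gcdB a1 a2 := ⟨_, rfl⟩
  rw [← hgd] at hg hd1 hd2 hb
  rw [← hu, ← hv] at hb
  have hb1 : g * (d1 * u + d2 * v) = g * 1 := by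
    rw [mul_one]
    calc g * (d1 * u + d2 * v) = (g * d1) * u + (g * d2) * v := by ring
      _ = a1 * u + a2 * v := by rw [← hd1, ← hd2]
      _ = g := hb.symm
  have hb2 : d1 * u + d2 * v = 1 := mul_left_cancel₀ hg hb1
  have hpar : g * (d1 * e2 - d2 * e1) = g * 0 := by
    rw [mul_zero, ← h, hd1, hd2]
    ring
  have hpar2 : d1 * e2 - d2 * e1 = 0 := mul_left_cancel₀ hg hpar
  have hn1 : e1 = (e1 * u + e2 * v) * d1 := by
    linear_combination (-e1) * hb2 - v * hpar2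
  have hn2 : e2 = (e1 * u + e2 * v) * d2 := by
    linear_combination (-e2) * hb2 + u * hpar2
  refine ⟨(d1, d2), g, e1 * u + e2 * v, hg, ?_, ?_, ?_⟩
  · intro h0
    rw [h0, zero_mul] at hn1 hn2
    exact he (by rw [hn1, hn2]; rfl)
  · exact Prod.ext hd1 hd2
  · exact Prod.ext hn1 hn2

end TRAx

theorem t_TRA (h1 : S_TR) (h2 : S_EMP) (h3 : S_TRA0) : S_TRA := by
  intro a b c ha hbc hdet hab
  have hcb : c - b ≠ 0 := sub_ne_zero.2 (Ne.symm hbc)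
  obtain ⟨d, m, n, hm, hn, e1, e2⟩ := TRAx.par a (c - b) ha hcb hdet
  obtain ⟨i, hi⟩ := TRAx.exV m hm
  obtain ⟨j, hj⟩ := TRAx.exV n hn
  have hdb : det d b ≠ 0 := by
    intro h0
    apply hab
    simp only [det] at h0 ⊢
    rw [e1]
    simp only
    linear_combination m * h0
  have hc : c = (n * d.1 + b.1, n * d.2 + b.2) := by
    have h4 : c = (c - b) + b := by abel
    rw [h4, e2]
    rfl
  rcases le_or_gt i j with hij | hij
  · have h5 := h2 _ d b hdb (h3 i j m n hij hi hj)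
    rw [Set.image_insert_eq, Set.image_insert_eq, Set.image_insert_eq, Set.image_singleton] at h5
    have h6 : ({(0 : ℤ × ℤ), a, b, c} : Set (ℤ × ℤ)) =
        {((0 : ℤ) * d.1 + 0 * b.1, (0 : ℤ) * d.2 + 0 * b.2), (m * d.1 + 0 * b.1, m * d.2 + 0 * b.2),
          (0 * d.1 + 1 * b.1, 0 * d.2 + 1 * b.2), (n * d.1 + 1 * b.1, n * d.2 + 1 * b.2)} := by
      have a1 : ((0 : ℤ) * d.1 + 0 * b.1, (0 : ℤ) * d.2 + 0 * b.2) = (0 : ℤ × ℤ) := by
        simp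
      have a2 : (m * d.1 + 0 * b.1, m * d.2 + 0 * b.2) = a := by
        rw [e1]; simp
      have a3 : (0 * d.1 + 1 * b.1, 0 * d.2 + 1 * b.2) = b := by
        simp
      have a4 : (n * d.1 + 1 * b.1, n * d.2 + 1 * b.2) = c := by
        rw [hc]; simp
      rw [a1, a2, a3, a4]
    rw [h6]
    exact h5
  · have hdb' : det d (-b) ≠ 0 := by
      intro h0
      apply hdb
      simp only [det, Prod.fst_neg, Prod.snd_neg] at h0 ⊢
      linear_combination -h0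
    have h5 := h1 _ b (h2 _ d (-b) hdb' (h3 j i n m hij.le hj hi))
    simp only [Set.image_insert_eq, Set.image_singleton] at h5
    have h6 : ({(0 : ℤ × ℤ), a, b, c} : Set (ℤ × ℤ)) = {b, c, 0, a} := by
      ext p
      simp only [Set.mem_insert_iff, Set.mem_singleton_iff]
      tauto
    have a1 : (((0 : ℤ) * d.1 + 0 * (-b).1, (0 : ℤ) * d.2 + 0 * (-b).2) : ℤ × ℤ) + b = b := by
      simp
    have a2 : ((n * d.1 + 0 * (-b).1, n * d.2 + 0 * (-b).2) : ℤ × ℤ) + b = c := by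
      rw [hc]
      refine Prod.ext ?_ ?_ <;> simp
    have a3 : ((0 * d.1 + 1 * (-b).1, 0 * d.2 + 1 * (-b).2) : ℤ × ℤ) + b = 0 := by
      refine Prod.ext ?_ ?_ <;> simp
    have a4 : ((m * d.1 + 1 * (-b).1, m * d.2 + 1 * (-b).2) : ℤ × ℤ) + b = a := by
      rw [e1]
      refine Prod.ext ?_ ?_ <;> simp
    simp only [a1, a2, a3, a4] at h5
    rw [h6]
    exact h5

end R178.GT
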