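import Mathlib
import Pool.Agent.R178.GT.Defs

/-! GT-TRA0: trapezoids in standard form. -/

set_option autoImplicit false

namespace R178.GT

namespace TRA0x

theorem exu {S : Set (ℤ × ℤ)} {Q : Set (Fin 4 × (ℤ × ℤ))} (p : ℤ × ℤ) (k0 : Fin 4) (s0 : ℤ × ℤ)
    (hs : s0 ∈ S) (hq : (k0, p - rot k0 s0) ∈ Q)
    (hu : ∀ k, ∀ s' ∈ S, (k, p - rot k s') ∈ Q → k = k0 ∧ s' = s0) :
    ∃! x : (Fin 4 × (ℤ × ℤ)) × (ℤ × ℤ), x.1 ∈ Q ∧ x.2 ∈ S ∧ rot x.1.1 x.2 + x.1.2 = p := by
  refine ⟨((k0, p - rot k0 s0), s0), ⟨hq, hs, by simp⟩, ?_⟩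
  rintro ⟨⟨k, t⟩, s'⟩ ⟨h1, h2, h3⟩
  have ht : t = p - rot k s' := by
    have h4 : rot k s' + t = p := h3
    rw [← h4]; simp
  subst ht
  obtain ⟨rfl, rfl⟩ := hu k s' h2 h1
  rfl

end TRA0x

theorem t_TRA0 (hb : S_BIT) : S_TRA0 := by
  intro i j m n hij hm hn
  obtain ⟨β, hβ, hβ2⟩ := hb i
  have h1 : ∀ z, β (z - m) = !β z := by
    intro z
    have := hβ m hm (z - m)
    rw [sub_add_cancel] at this
    rw [this]; simp
  rcases Nat.eq_or_lt_of_le hij with rfl | hlt
  · have h2 : ∀ z, β (z - n) = !β z := by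
      intro z
      have := hβ n hn (z - n)
      rw [sub_add_cancel] at this
      rw [this]; simp
    refine ⟨{q | q.1 = 0 ∧ q.2.2 % 2 = 0 ∧ β q.2.1 = false}, ?_, fun q hq => Or.inl hq.1⟩
    rintro ⟨p1, p2⟩
    have h1' := h1 p1
    have h2' := h2 p1
    rcases Int.emod_two_eq_zero_or_one p2 with hp | hp <;> cases hx : β p1 <;>
      rw [hx] at h1' h2'
    · refine TRA0x.exu _ 0 (0, 0) (by simp) ⟨rfl, by simpa [rot] using hp, by simpa [rot] using hx⟩ ?_
      rintro k s' hs' ⟨hk, x1, x2⟩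
      simp only at hk
      subst hk
      simp only [Set.mem_insert_iff, Set.mem_singleton_iff] at hs'
      rcases hs' with rfl | rfl | rfl | rfl
      · simp
      · simp [rot, h1'] at x2
      · simp [rot] at x1; omega
      · simp [rot] at x1; omega
    · refine TRA0x.exu _ 0 (m, 0) (by simp) ⟨rfl, by simpa [rot] using hp, by simpa [rot] using h1'⟩ ?_
      rintro k s' hs' ⟨hk, x1, x2⟩
      simp only at hk
      subst hk
      simp only [Set.mem_insert_iff, Set.mem_singleton_iff] at hs'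
      rcases hs' with rfl | rfl | rfl | rfl
      · simp [rot, hx] at x2
      · simp
      · simp [rot] at x1; omega
      · simp [rot] at x1; omega
    · refine TRA0x.exu _ 0 (0, 1) (by simp) ⟨rfl, by simp [rot]; omega, by simpa [rot] using hx⟩ ?_
      rintro k s' hs' ⟨hk, x1, x2⟩
      simp only at hk
      subst hk
      simp only [Set.mem_insert_iff, Set.mem_singleton_iff] at hs'
      rcases hs' with rfl | rfl | rfl | rfl
      · simp [rot] at x1; omega
      · simp [rot] at x1; omega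
      · simp
      · simp [rot, h2'] at x2
    · refine TRA0x.exu _ 0 (n, 1) (by simp) ⟨rfl, by simp [rot]; omega, by simpa [rot] using h2'⟩ ?_
      rintro k s' hs' ⟨hk, x1, x2⟩
      simp only at hk
      subst hk
      simp only [Set.mem_insert_iff, Set.mem_singleton_iff] at hs'
      rcases hs' with rfl | rfl | rfl | rfl
      · simp [rot] at x1; omega
      · simp [rot] at x1; omega
      · simp [rot, hx] at x2
      · simp
  · obtain ⟨β', hβ', -⟩ := hb j
    set P : ℤ := 2 ^ j with hP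
    have hPV : V j P := ⟨0, by simp [hP]⟩
    have h2 : ∀ z, β (z + n) = β z := hβ2 j n hlt hn
    have h2s : ∀ z, β (z - n) = β z := fun z => by
      have := h2 (z - n)
      rw [sub_add_cancel] at this
      exact this.symm
    have h3 : ∀ z, β (z - P) = β z := fun z => by
      have := hβ2 j P hlt hPV (z - P)
      rw [sub_add_cancel] at this
      exact this.symm
    have h4 : ∀ z, β' (z + n) = !β' z := hβ' n hn
    have h4s : ∀ z, β' (z - n) = !β' z := fun z => by
      have := h4 (z - n)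
      rw [sub_add_cancel] at this
      rw [this]; simp
    have h5 : ∀ z, β' (z - P) = !β' z := fun z => by
      have := hβ' P hPV (z - P)
      rw [sub_add_cancel] at this
      rw [this]; simp
    refine ⟨{q | (q.1 = 0 ∧ q.2.2 % 2 = 0 ∧ β q.2.1 = false ∧ β' q.2.1 = false) ∨
      (q.1 = 2 ∧ q.2.2 % 2 = 0 ∧ β (q.2.1 - m - P) = false ∧ β' (q.2.1 - m - P) = false)}, ?_,
      fun q hq => hq.imp (fun h => h.1) (fun h => h.1)⟩
    rintro ⟨p1, p2⟩
    have Fb := h1 p1
    have Fc := h2s p1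
    have Fc' := h4s p1
    have Fd : β (p1 - m - P) = !β p1 := by rw [h3, h1]
    have Fd' : β' (p1 - m - P) = !β' (p1 - m) := by rw [h5]
    have Fe : β (p1 - P) = β p1 := h3 p1
    have Fe' : β' (p1 - P) = !β' p1 := h5 p1
    have Ff : β (p1 + n - m - P) = !β p1 := by rw [h3, h1, h2]
    have Ff' : β' (p1 + n - m - P) = β' (p1 - m) := by
      rw [h5, show p1 + n - m = p1 - m + n by ring, h4]; simp
    have hpar : p2 % 2 = 0 ∨ p2 % 2 = 1 := Int.emod_two_eq_zero_or_one p2
    -- uniqueness helper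
    have key : ∀ (k0 : Fin 4) (s0 : ℤ × ℤ),
        s0 ∈ ({((0 : ℤ), (0 : ℤ)), (m, 0), (0, 1), (n, 1)} : Set (ℤ × ℤ)) → True := fun _ _ _ => trivial
    rcases hpar with hp | hp
    · have hp1 : ¬ (p2 - 1) % 2 = 0 := by omega
      have hp2 : ¬ (p2 + 1) % 2 = 0 := by omega
      cases hx : β p1
      · cases hy : β' p1
        · refine TRA0x.exu _ 0 (0, 0) (by simp) (by simp [rot, hp, hx, hy] <;> omega) ?_
          intro k s' hs' hq
          simp only [Set.mem_insert_iff, Set.mem_singleton_iff] at hs'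
          rcases hs' with rfl | rfl | rfl | rfl <;> rcases hq with ⟨hk, hq⟩ | ⟨hk, hq⟩ <;>
            simp only at hk <;> subst hk <;>
            simp [rot, hp, hp1, hp2, hx, hy, Fb, Fc, Fc', Fd, Fd', Fe, Fe', Ff, Ff'] at hq ⊢ <;> omega
        · refine TRA0x.exu _ 2 (m, 0) (by simp) (by simp [rot, hp, hx, hy, Fe, Fe'] <;> omega) ?_
          intro k s' hs' hq
          simp only [Set.mem_insert_iff, Set.mem_singleton_iff] at hs'
          rcases hs' with rfl | rfl | rfl | rfl <;> rcases hq with ⟨hk, hq⟩ | ⟨hk, hq⟩ <;>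
            simp only at hk <;> subst hk <;>
            simp [rot, hp, hp1, hp2, hx, hy, Fb, Fc, Fc', Fd, Fd', Fe, Fe', Ff, Ff'] at hq ⊢ <;> omega
      · cases hy : β' (p1 - m)
        · refine TRA0x.exu _ 0 (m, 0) (by simp) (by simp [rot, hp, hx, hy, Fb] <;> omega) ?_
          intro k s' hs' hq
          simp only [Set.mem_insert_iff, Set.mem_singleton_iff] at hs'
          rcases hs' with rfl | rfl | rfl | rfl <;> rcases hq with ⟨hk, hq⟩ | ⟨hk, hq⟩ <;>
            simp only at hk <;> subst hk <;>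
            simp [rot, hp, hp1, hp2, hx, hy, Fb, Fc, Fc', Fd, Fd', Fe, Fe', Ff, Ff'] at hq ⊢ <;> omega
        · refine TRA0x.exu _ 2 (0, 0) (by simp) (by simp [rot, hp, hx, hy, Fd, Fd'] <;> omega) ?_
          intro k s' hs' hq
          simp only [Set.mem_insert_iff, Set.mem_singleton_iff] at hs'
          rcases hs' with rfl | rfl | rfl | rfl <;> rcases hq with ⟨hk, hq⟩ | ⟨hk, hq⟩ <;>
            simp only at hk <;> subst hk <;>
            simp [rot, hp, hp1, hp2, hx, hy, Fb, Fc, Fc', Fd, Fd', Fe, Fe', Ff, Ff'] at hq ⊢ <;> omega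
    · have hp0 : ¬ p2 % 2 = 0 := by omega
      have hp1 : (p2 - 1) % 2 = 0 := by omega
      have hp2 : (p2 + 1) % 2 = 0 := by omega
      cases hx : β p1
      · cases hy : β' p1
        · refine TRA0x.exu _ 0 (0, 1) (by simp) (by simp [rot, hp1, hx, hy] <;> omega) ?_
          intro k s' hs' hq
          simp only [Set.mem_insert_iff, Set.mem_singleton_iff] at hs'
          rcases hs' with rfl | rfl | rfl | rfl <;> rcases hq with ⟨hk, hq⟩ | ⟨hk, hq⟩ <;>
            simp only at hk <;> subst hk <;>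
            simp [rot, hp, hp1, hp2, hx, hy, Fb, Fc, Fc', Fd, Fd', Fe, Fe', Ff, Ff'] at hq ⊢ <;> omega
        · refine TRA0x.exu _ 0 (n, 1) (by simp) (by simp [rot, hp1, hx, hy, Fc, Fc'] <;> omega) ?_
          intro k s' hs' hq
          simp only [Set.mem_insert_iff, Set.mem_singleton_iff] at hs'
          rcases hs' with rfl | rfl | rfl | rfl <;> rcases hq with ⟨hk, hq⟩ | ⟨hk, hq⟩ <;>
            simp only at hk <;> subst hk <;>
            simp [rot, hp, hp1, hp2, hx, hy, Fb, Fc, Fc', Fd, Fd', Fe, Fe', Ff, Ff'] at hq ⊢ <;> omega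
      · cases hy : β' (p1 - m)
        · refine TRA0x.exu _ 2 (n, 1) (by simp) (by simp [rot, hp2, hx, hy, Ff, Ff'] <;> omega) ?_
          intro k s' hs' hq
          simp only [Set.mem_insert_iff, Set.mem_singleton_iff] at hs'
          rcases hs' with rfl | rfl | rfl | rfl <;> rcases hq with ⟨hk, hq⟩ | ⟨hk, hq⟩ <;>
            simp only at hk <;> subst hk <;>
            simp [rot, hp, hp1, hp2, hx, hy, Fb, Fc, Fc', Fd, Fd', Fe, Fe', Ff, Ff'] at hq ⊢ <;> omega
        · refine TRA0x.exu _ 2 (0, 1) (by simp) (by simp [rot, hp2, hx, hy, Fd, Fd'] <;> omega) ?_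
          intro k s' hs' hq
          simp only [Set.mem_insert_iff, Set.mem_singleton_iff] at hs'
          rcases hs' with rfl | rfl | rfl | rfl <;> rcases hq with ⟨hk, hq⟩ | ⟨hk, hq⟩ <;>
            simp only at hk <;> subst hk <;>
            simp [rot, hp, hp1, hp2, hx, hy, Fb, Fc, Fc', Fd, Fd', Fe, Fe', Ff, Ff'] at hq ⊢ <;> omega

end R178.GT
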